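import Mathlib

namespace Pool.Agent.Results.MP_a37b3a_al.ReducibleRigid

open Matrix Topology Filter
open scoped Pointwise

/-- The diagonal matrix `diag(1,-1,...,-1)` of size `p+1`: Gram matrix of the form of
signature `(1,p)`. -/
def J (p : ℕ) : Matrix (Fin (p + 1)) (Fin (p + 1)) ℝ :=
  Matrix.diagonal fun i => if i = 0 then 1 else -1

/-- The special orthogonal group of the bilinear form with Gram matrix `S`. -/
def SO {n : Type} [Fintype n] [DecidableEq n] (S : Matrix n n ℝ) :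
    Subgroup (Matrix.SpecialLinearGroup n ℝ) where
  carrier := {A | (A : Matrix n n ℝ)ᵀ * S * (A : Matrix n n ℝ) = S}
  mul_mem' := by
    intro A B hA hB
    simp only [Set.mem_ofPred_eq] at hA hB ⊢
    rw [Matrix.SpecialLinearGroup.coe_mul, transpose_mul]
    calc (B : Matrix n n ℝ)ᵀ * (A : Matrix n n ℝ)ᵀ * S * ((A : Matrix n n ℝ) * (B : Matrix n n ℝ))
        = (B : Matrix n n ℝ)ᵀ * ((A : Matrix n n ℝ)ᵀ * S * (A : Matrix n n ℝ)) *
            (B : Matrix n n ℝ) := by simp only [Matrix.mul_assoc]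
      _ = S := by rw [hA, hB]
  one_mem' := by simp
  inv_mem' := by
    intro A hA
    simp only [Set.mem_ofPred_eq] at hA ⊢
    have h1 : (A : Matrix n n ℝ) * ((A⁻¹ : Matrix.SpecialLinearGroup n ℝ) : Matrix n n ℝ) = 1 := by
      rw [← Matrix.SpecialLinearGroup.coe_mul]; simp
    have h2 : ((A⁻¹ : Matrix.SpecialLinearGroup n ℝ) : Matrix n n ℝ)ᵀ * (A : Matrix n n ℝ)ᵀ = 1 := by
      rw [← transpose_mul, h1, transpose_one]
    calc ((A⁻¹ : Matrix.SpecialLinearGroup n ℝ) : Matrix n n ℝ)ᵀ * S *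
          ((A⁻¹ : Matrix.SpecialLinearGroup n ℝ) : Matrix n n ℝ)
        = ((A⁻¹ : Matrix.SpecialLinearGroup n ℝ) : Matrix n n ℝ)ᵀ *
          ((A : Matrix n n ℝ)ᵀ * S * (A : Matrix n n ℝ)) *
          ((A⁻¹ : Matrix.SpecialLinearGroup n ℝ) : Matrix n n ℝ) := by rw [hA]
      _ = (((A⁻¹ : Matrix.SpecialLinearGroup n ℝ) : Matrix n n ℝ)ᵀ * (A : Matrix n n ℝ)ᵀ) * S *
          ((A : Matrix n n ℝ) * ((A⁻¹ : Matrix.SpecialLinearGroup n ℝ) : Matrix n n ℝ)) := by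
            simp only [Matrix.mul_assoc]
      _ = S := by rw [h1, h2]; simp

theorem mem_SO {n : Type} [Fintype n] [DecidableEq n] (S : Matrix n n ℝ)
    (A : Matrix.SpecialLinearGroup n ℝ) :
    A ∈ SO S ↔ (A : Matrix n n ℝ)ᵀ * S * (A : Matrix n n ℝ) = S := Iff.rfl

/-- The Gram matrix of the orthogonal direct sum of the forms of signatures `(1,p)`, `(1,q)`. -/
def J2 (p q : ℕ) : Matrix (Fin (p + 1) ⊕ Fin (q + 1)) (Fin (p + 1) ⊕ Fin (q + 1)) ℝ :=
  fromBlocks (J p) 0 0 (J q)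

/-- block diagonal embedding -/
def iota (p q : ℕ) : (SO (J p) × SO (J q)) →* SO (J2 p q) where
  toFun x := ⟨⟨fromBlocks (x.1 : Matrix _ _ ℝ) 0 0 (x.2 : Matrix _ _ ℝ), by
      rw [det_fromBlocks_zero₂₁, x.1.1.2, x.2.1.2, one_mul]⟩, by
      rw [mem_SO]
      have h1 := (mem_SO _ _).1 x.1.2
      have h2 := (mem_SO _ _).1 x.2.2
      simp only [J2, fromBlocks_transpose, fromBlocks_multiply]
      simp [h1, h2]⟩
  map_one' := by
    ext i j
    simp [← fromBlocks_one]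
  map_mul' x y := by
    ext i j
    simp [fromBlocks_multiply]

/-- first intersection (auxiliary form) -/
def Gam1 {p q : ℕ} (Γ : Subgroup (SO (J p) × SO (J q))) : Subgroup (SO (J p)) :=
  Γ.comap (MonoidHom.inl _ _)

/-- second intersection (auxiliary form) -/
def Gam2 {p q : ℕ} (Γ : Subgroup (SO (J p) × SO (J q))) : Subgroup (SO (J q)) :=
  Γ.comap (MonoidHom.inr _ _)

/-- the bilinear form of signature `(1,p)` -/
def bf {p : ℕ} (x y : Fin (p + 1) → ℝ) : ℝ := x 0 * y 0 - ∑ i : Fin p, x i.succ * y i.succ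

theorem dot_J {p : ℕ} (x y : Fin (p + 1) → ℝ) : x ⬝ᵥ (J p *ᵥ y) = bf x y := by
  simp [J, bf, dotProduct, mulVec_diagonal, Fin.sum_univ_succ, sub_eq_add_neg]

theorem bf_comm {p : ℕ} (x y : Fin (p + 1) → ℝ) : bf x y = bf y x := by
  simp only [bf, mul_comm]

theorem bf_add_right {p : ℕ} (x y z : Fin (p + 1) → ℝ) : bf x (y + z) = bf x y + bf x z := by
  simp only [← dot_J, mulVec_add, dotProduct_add]

theorem bf_add_left {p : ℕ} (x y z : Fin (p + 1) → ℝ) : bf (x + y) z = bf x z + bf y z := by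
  simp only [← dot_J, add_dotProduct]

theorem bf_sub_right {p : ℕ} (x y z : Fin (p + 1) → ℝ) : bf x (y - z) = bf x y - bf x z := by
  simp only [← dot_J, mulVec_sub, dotProduct_sub]

theorem bf_sub_left {p : ℕ} (x y z : Fin (p + 1) → ℝ) : bf (x - y) z = bf x z - bf y z := by
  simp only [← dot_J, sub_dotProduct]

theorem bf_smul_right {p : ℕ} (c : ℝ) (x y : Fin (p + 1) → ℝ) : bf x (c • y) = c * bf x y := by
  simp only [← dot_J, mulVec_smul, dotProduct_smul, smul_eq_mul]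

theorem bf_smul_left {p : ℕ} (c : ℝ) (x y : Fin (p + 1) → ℝ) : bf (c • x) y = c * bf x y := by
  simp only [← dot_J, smul_dotProduct, smul_eq_mul]

theorem bf_zero_right {p : ℕ} (x : Fin (p + 1) → ℝ) : bf x 0 = 0 := by
  simp [bf]

theorem bf_zero_left {p : ℕ} (x : Fin (p + 1) → ℝ) : bf 0 x = 0 := by
  simp [bf]

theorem J_mul_J (p : ℕ) : J p * J p = 1 := by
  rw [J, diagonal_mul_diagonal, ← diagonal_one]
  congr 1
  ext i
  split_ifs <;> simp

theorem J_transpose (p : ℕ) : (J p)ᵀ = J p := by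
  rw [J, diagonal_transpose]

/-- a group element preserves the form -/
theorem bf_mulVec {p : ℕ} {A : Matrix (Fin (p + 1)) (Fin (p + 1)) ℝ} (hA : Aᵀ * J p * A = J p)
    (x y : Fin (p + 1) → ℝ) : bf (A *ᵥ x) (A *ᵥ y) = bf x y := by
  rw [← dot_J, ← dot_J]
  have : (A *ᵥ x) ⬝ᵥ (J p *ᵥ (A *ᵥ y)) = x ⬝ᵥ ((Aᵀ * J p * A) *ᵥ y) := by
    simp only [← mulVec_mulVec, dotProduct_mulVec, vecMul_transpose]
  rw [this, hA]

/-- causal orthogonal vectors are parallel -/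
theorem causal {p : ℕ} {x y : Fin (p + 1) → ℝ} (hx0 : x ≠ 0) (hx : 0 ≤ bf x x) (hy : 0 ≤ bf y y)
    (hxy : bf x y = 0) : ∃ c : ℝ, y = c • x := by
  have hx00 : x 0 ≠ 0 := by
    intro h0
    apply hx0
    have h1 : ∑ i : Fin p, x i.succ * x i.succ ≤ 0 := by
      simp only [bf, h0] at hx
      linarith
    have h2 := (Finset.sum_eq_zero_iff_of_nonneg (fun i _ => mul_self_nonneg (x (Fin.succ i)))).1
      (le_antisymm h1 (Finset.sum_nonneg fun i _ => mul_self_nonneg _))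
    ext i
    refine Fin.cases h0 (fun j => ?_) i
    simpa using h2 j (Finset.mem_univ j)
  set z : Fin (p + 1) → ℝ := x 0 • y - y 0 • x with hz
  have hz0 : z 0 = 0 := by simp [hz, mul_comm]
  have hzz : bf z z = x 0 ^ 2 * bf y y + y 0 ^ 2 * bf x x := by
    simp only [hz, bf_sub_left, bf_sub_right, bf_smul_left, bf_smul_right, hxy, bf_comm y x]
    ring
  have h0 : 0 ≤ bf z z := by rw [hzz]; positivity
  have h1 : ∑ i : Fin p, z i.succ * z i.succ ≤ 0 := by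
    simp only [bf, hz0] at h0
    linarith
  have h2 := (Finset.sum_eq_zero_iff_of_nonneg (fun i _ => mul_self_nonneg (z (Fin.succ i)))).1
      (le_antisymm h1 (Finset.sum_nonneg fun i _ => mul_self_nonneg _))
  have hzz0 : z = 0 := by
    ext i
    refine Fin.cases hz0 (fun j => ?_) i
    simpa using h2 j (Finset.mem_univ j)
  refine ⟨y 0 / x 0, ?_⟩
  have h3 : x 0 • y = y 0 • x := sub_eq_zero.1 hzz0
  calc y = (x 0)⁻¹ • (x 0 • y) := by rw [smul_smul, inv_mul_cancel₀ hx00, one_smul]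
    _ = (y 0 / x 0) • x := by rw [h3, smul_smul]; congr 1; field_simp

/-- orthogonality to everything -/
theorem bf_nondeg {p : ℕ} {x : Fin (p + 1) → ℝ} (h : ∀ y, bf x y = 0) : x = 0 := by
  have h1 : ∀ y, x ⬝ᵥ y = 0 := by
    intro y
    have := h (J p *ᵥ y)
    rwa [← dot_J, mulVec_mulVec, J_mul_J, one_mulVec] at this
  ext i
  have := h1 (Pi.single i 1)
  simpa using this

/-- reflection in `x` -/
noncomputable def refl {p : ℕ} (x : Fin (p + 1) → ℝ) : Matrix (Fin (p + 1)) (Fin (p + 1)) ℝ :=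
  1 - vecMulVec ((2 / bf x x) • x) (J p *ᵥ x)

theorem refl_mulVec {p : ℕ} (x y : Fin (p + 1) → ℝ) :
    refl x *ᵥ y = y - (2 / bf x x * bf x y) • x := by
  rw [refl, sub_mulVec, one_mulVec, vecMulVec_mulVec]
  congr 1
  have : (J p *ᵥ x) ⬝ᵥ y = bf x y := by
    rw [dotProduct_comm, dot_J, bf_comm]
  rw [this]
  ext i
  simp
  ring

theorem refl_mem {p : ℕ} (x : Fin (p + 1) → ℝ) (hx : bf x x ≠ 0) :
    (refl x)ᵀ * J p * refl x = J p := by
  have h1 : ∀ y z, (refl x *ᵥ y) ⬝ᵥ (J p *ᵥ (refl x *ᵥ z)) = y ⬝ᵥ (J p *ᵥ z) := by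
    intro y z
    rw [dot_J, dot_J, refl_mulVec, refl_mulVec]
    simp only [bf_sub_left, bf_sub_right, bf_smul_left, bf_smul_right, bf_comm y x]
    field_simp
    ring
  ext i j
  have h2 := h1 (Pi.single i 1) (Pi.single j 1)
  have h3 : (refl x *ᵥ Pi.single i 1) ⬝ᵥ (J p *ᵥ (refl x *ᵥ Pi.single j 1))
      = Pi.single i 1 ⬝ᵥ (((refl x)ᵀ * J p * refl x) *ᵥ Pi.single j 1) := by
    simp only [← mulVec_mulVec, dotProduct_mulVec, vecMul_transpose]
  rw [h3] at h2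
  simpa using h2

theorem det_refl {p : ℕ} (x : Fin (p + 1) → ℝ) (hx : bf x x ≠ 0) : (refl x).det = -1 := by
  have h : refl x = 1 - replicateCol Unit ((2 / bf x x) • x) * replicateRow Unit (J p *ᵥ x) := by
    rw [refl, vecMulVec_eq Unit]
  rw [h, det_one_sub_mul_comm, det_unique, Matrix.sub_apply, Matrix.one_apply_eq,
    replicateRow_mul_replicateCol_apply]
  have : (J p *ᵥ x) ⬝ᵥ ((2 / bf x x) • x) = 2 := by
    rw [dotProduct_smul, dotProduct_comm, dot_J, smul_eq_mul]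
    field_simp
  rw [this]; norm_num

/-- the unit vector `e_0` -/
def e0 (p : ℕ) : Fin (p + 1) → ℝ := Pi.single 0 1

theorem bf_e0_right {p : ℕ} (x : Fin (p + 1) → ℝ) : bf x (e0 p) = x 0 := by
  simp [bf, e0]

theorem bf_e0_left {p : ℕ} (x : Fin (p + 1) → ℝ) : bf (e0 p) x = x 0 := by
  rw [bf_comm, bf_e0_right]

theorem e0_zero {p : ℕ} : e0 p 0 = 1 := by simp [e0]

theorem prop_of_mem {n : Type} [Fintype n] [DecidableEq n] {S : Matrix n n ℝ} (g : SO S) :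
    g.1.1ᵀ * S * g.1.1 = S := g.2

/-- product of two reflections as a group element -/
noncomputable def reflrefl {p : ℕ} (x y : Fin (p + 1) → ℝ) (hx : bf x x ≠ 0) (hy : bf y y ≠ 0) :
    SO (J p) :=
  ⟨⟨refl x * refl y, by rw [det_mul, det_refl x hx, det_refl y hy]; norm_num⟩, by
    rw [mem_SO]
    calc (refl x * refl y)ᵀ * J p * (refl x * refl y)
        = (refl y)ᵀ * ((refl x)ᵀ * J p * refl x) * refl y := by
          rw [transpose_mul]; simp only [Matrix.mul_assoc]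
      _ = J p := by rw [refl_mem x hx, refl_mem y hy]⟩

/-- transitivity on the timelike unit vectors -/
theorem exists_move {p : ℕ} (w : Fin (p + 1) → ℝ) (hw : bf w w = 1) (hw0 : 0 < w 0) :
    ∃ c : SO (J p), c.1.1 *ᵥ w = e0 p := by
  have he : bf (e0 p) (e0 p) ≠ 0 := by rw [bf_e0_right, e0_zero]; norm_num
  have hv : bf (w + e0 p) (w + e0 p) = 2 + 2 * w 0 := by
    rw [bf_add_left, bf_add_right, bf_add_right, hw, bf_e0_right, bf_e0_right, bf_e0_left, e0_zero]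
    ring
  have hv' : bf (w + e0 p) (w + e0 p) ≠ 0 := by rw [hv]; positivity
  refine ⟨reflrefl (e0 p) (w + e0 p) he hv', ?_⟩
  change (refl (e0 p) * refl (w + e0 p)) *ᵥ w = e0 p
  rw [← mulVec_mulVec, refl_mulVec (w + e0 p), hv]
  have h1 : bf (w + e0 p) w = 1 + w 0 := by rw [bf_add_left, hw, bf_e0_left]
  rw [h1]
  have h2 : 2 / (2 + 2 * w 0) * (1 + w 0) = 1 := by
    have : (0:ℝ) < 2 + 2 * w 0 := by positivity
    field_simp
  rw [h2, one_smul]
  have h3 : w - (w + e0 p) = - e0 p := by abel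
  rw [h3, refl_mulVec, bf_e0_left, bf_e0_left]
  simp only [Pi.neg_apply, e0_zero]
  ext i
  simp
  ring

theorem mulVec_inv_mulVec {n : Type} [Fintype n] [DecidableEq n] {S : Matrix n n ℝ} (g : SO S)
    (x : n → ℝ) : g.1.1 *ᵥ ((g⁻¹).1.1 *ᵥ x) = x := by
  rw [mulVec_mulVec]
  have : g.1.1 * (g⁻¹).1.1 = 1 := by
    have h := congrArg (fun h : SO S => h.1.1) (mul_inv_cancel g)
    exact h
  rw [this, one_mulVec]

theorem inv_mulVec_mulVec {n : Type} [Fintype n] [DecidableEq n] {S : Matrix n n ℝ} (g : SO S)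
    (x : n → ℝ) : (g⁻¹).1.1 *ᵥ (g.1.1 *ᵥ x) = x := by
  rw [mulVec_mulVec]
  have : (g⁻¹).1.1 * g.1.1 = 1 := by
    have h := congrArg (fun h : SO S => h.1.1) (inv_mul_cancel g)
    exact h
  rw [this, one_mulVec]

theorem coe_mul' {n : Type} [Fintype n] [DecidableEq n] {S : Matrix n n ℝ} (g h : SO S) :
    (g * h).1.1 = g.1.1 * h.1.1 := rfl

theorem bf_act {p : ℕ} (g : SO (J p)) (x y : Fin (p + 1) → ℝ) :
    bf (g.1.1 *ᵥ x) (g.1.1 *ᵥ y) = bf x y :=
  bf_mulVec (prop_of_mem g) x y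

theorem bf_act_inv {p : ℕ} (g : SO (J p)) (x y : Fin (p + 1) → ℝ) :
    bf (g.1.1 *ᵥ x) y = bf x ((g⁻¹).1.1 *ᵥ y) := by
  conv_lhs => rw [← mulVec_inv_mulVec g y]
  exact bf_act g _ _

/-- orbits of nonzero vectors are unbounded -/
theorem orbit_unbounded {p : ℕ} (hp : 1 ≤ p) (v : Fin (p + 1) → ℝ) (hv : v ≠ 0) (R : ℝ) :
    ∃ g : SO (J p), R < |(g.1.1 *ᵥ v) 0| := by
  -- it suffices to find a timelike unit vector w with |bf v w| > R
  suffices h : ∃ w : Fin (p + 1) → ℝ, bf w w = 1 ∧ 0 < w 0 ∧ R < |bf v w| by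
    obtain ⟨w, h1, h2, h3⟩ := h
    obtain ⟨c, hc⟩ := exists_move w h1 h2
    refine ⟨c, ?_⟩
    rwa [← bf_e0_right (c.1.1 *ᵥ v), ← hc, bf_act]
  -- choose the spatial direction
  set n : ℝ := ∑ i : Fin p, v i.succ * v i.succ with hn
  have hn0 : 0 ≤ n := Finset.sum_nonneg fun i _ => mul_self_nonneg _
  rcases hn0.lt_or_eq with hnpos | hn00
  · -- spatial part is nonzero
    obtain ⟨c, hc0, hcs⟩ : ∃ c : ℝ, R < |c| * n ∧ 0 ≤ v 0 * c := by
      have hK : R < ((|R| + 1) / n) * n := by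
        rw [div_mul_cancel₀ _ hnpos.ne']
        linarith [le_abs_self R]
      have hKp : 0 < (|R| + 1) / n := by positivity
      rcases le_total 0 (v 0) with h | h
      · exact ⟨(|R| + 1) / n, by rwa [abs_of_pos hKp], by positivity⟩
      · refine ⟨-((|R| + 1) / n), by rwa [abs_neg, abs_of_pos hKp], ?_⟩
        nlinarith
    refine ⟨Fin.cons (Real.sqrt (1 + c ^ 2 * n)) (fun i => -c * v i.succ), ?_, ?_, ?_⟩
    · simp only [bf, Fin.cons_zero, Fin.cons_succ]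
      rw [Real.mul_self_sqrt (by positivity)]
      have : ∑ i : Fin p, -c * v i.succ * (-c * v i.succ) = c ^ 2 * n := by
        rw [hn, Finset.mul_sum]
        exact Finset.sum_congr rfl fun i _ => by ring
      rw [this]; ring
    · simp only [Fin.cons_zero]
      positivity
    · simp only [bf, Fin.cons_zero, Fin.cons_succ]
      have : ∑ i : Fin p, v i.succ * (-c * v i.succ) = -(c * n) := by
        rw [hn, Finset.mul_sum, ← Finset.sum_neg_distrib]
        exact Finset.sum_congr rfl fun i _ => by ring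
      rw [this, sub_neg_eq_add]
      set s := Real.sqrt (1 + c ^ 2 * n) with hs
      have hs0 : 0 ≤ s := Real.sqrt_nonneg _
      have h1 : |c| * n = |c * n| := by rw [abs_mul, abs_of_nonneg hn0]
      rw [h1] at hc0
      have h2 : |c * n| ≤ |v 0 * s + c * n| := by
        rw [← sq_le_sq]
        have : 0 ≤ (v 0 * c) * (s * n) := by positivity
        nlinarith [sq_nonneg (v 0 * s)]
      exact hc0.trans_le h2
  · -- spatial part is zero
    have h2 := (Finset.sum_eq_zero_iff_of_nonneg (fun i _ => mul_self_nonneg (v (Fin.succ i)))).1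
      (hn00.symm)
    have hvs : ∀ j : Fin p, v j.succ = 0 := fun j => by simpa using h2 j (Finset.mem_univ j)
    have hv0 : v 0 ≠ 0 := by
      intro h0
      apply hv
      ext i
      exact Fin.cases h0 hvs i
    set c : ℝ := (|R| + 1) / |v 0| with hc
    have hcp : 0 < c := by positivity
    refine ⟨Fin.cons (Real.sqrt (1 + c ^ 2)) (fun i => if i = ⟨0, hp⟩ then c else 0), ?_, ?_, ?_⟩
    · simp only [bf, Fin.cons_zero, Fin.cons_succ]
      rw [Real.mul_self_sqrt (by positivity)]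
      have : ∑ i : Fin p, ((if i = ⟨0, hp⟩ then c else 0) * (if i = ⟨0, hp⟩ then c else 0) : ℝ)
          = c ^ 2 := by
        simp [pow_two]
      rw [this]; ring
    · simp only [Fin.cons_zero]
      positivity
    · simp only [bf, Fin.cons_zero, Fin.cons_succ, hvs, zero_mul, Finset.sum_const_zero, sub_zero]
      rw [abs_mul, abs_of_nonneg (Real.sqrt_nonneg _)]
      have h1 : c ≤ Real.sqrt (1 + c ^ 2) := by
        apply Real.le_sqrt_of_sq_le
        linarith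
      calc R ≤ |R| := le_abs_self R
        _ < |R| + 1 := by linarith
        _ = |v 0| * c := by rw [hc]; field_simp
        _ ≤ |v 0| * Real.sqrt (1 + c ^ 2) := by gcongr

theorem isClosedEmbedding_val {n : Type} [Fintype n] [DecidableEq n] (S : Matrix n n ℝ) :
    IsClosedEmbedding (fun g : SO S => g.1.1) := by
  have h1 : IsClosed ((SO S : Subgroup _) : Set (Matrix.SpecialLinearGroup n ℝ)) := by
    have : ((SO S : Subgroup _) : Set (Matrix.SpecialLinearGroup n ℝ))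
        = {A | (A.1)ᵀ * S * A.1 = S} := rfl
    rw [this]
    have hc : Continuous fun A : Matrix.SpecialLinearGroup n ℝ => A.1 := continuous_subtype_val
    exact isClosed_eq (by fun_prop) continuous_const
  exact Matrix.SpecialLinearGroup.isClosedEmbedding_val.comp h1.isClosedEmbedding_subtypeVal

instance {n : Type} [Fintype n] [DecidableEq n] (S : Matrix n n ℝ) : T2Space (SO S) :=
  (isClosedEmbedding_val S).isEmbedding.t2Space

instance {n : Type} [Fintype n] [DecidableEq n] (S : Matrix n n ℝ) :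
    LocallyCompactSpace (SO S) := by
  have : LocallyCompactSpace (Matrix n n ℝ) := inferInstanceAs (LocallyCompactSpace (n → n → ℝ))
  exact (isClosedEmbedding_val S).locallyCompactSpace

theorem col_zero {p : ℕ} (g : SO (J p)) (i : Fin (p + 1)) : (g.1.1 i 0) ^ 2 ≤ (g.1.1 0 0) ^ 2 := by
  have h := bf_act g (e0 p) (e0 p)
  have he : ∀ k, (g.1.1 *ᵥ e0 p) k = g.1.1 k 0 := by
    intro k; simp [e0]
  rw [bf_e0_right, e0_zero] at h
  simp only [bf, he] at h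
  refine Fin.cases le_rfl (fun j => ?_) i
  have h1 : g.1.1 j.succ 0 * g.1.1 j.succ 0 ≤ ∑ i : Fin p, g.1.1 i.succ 0 * g.1.1 i.succ 0 :=
    Finset.single_le_sum (f := fun i : Fin p => g.1.1 i.succ 0 * g.1.1 i.succ 0)
      (fun i _ => mul_self_nonneg _) (Finset.mem_univ j)
  nlinarith

theorem inv_zero {p : ℕ} (g : SO (J p)) : (g⁻¹).1.1 0 0 = g.1.1 0 0 := by
  have h := bf_act_inv g (e0 p) (e0 p)
  rw [bf_e0_right, bf_e0_left] at h
  simpa [e0] using h.symm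

theorem row_zero {p : ℕ} (g : SO (J p)) (j : Fin (p + 1)) : (g.1.1 0 j) ^ 2 ≤ (g.1.1 0 0) ^ 2 := by
  refine Fin.cases le_rfl (fun j => ?_) j
  have h := bf_act_inv g (Pi.single j.succ 1) (e0 p)
  rw [bf_e0_right] at h
  have h2 : bf (Pi.single j.succ 1) ((g⁻¹).1.1 *ᵥ e0 p) = - (g⁻¹).1.1 j.succ 0 := by
    simp [bf, e0, Pi.single_apply]
  rw [h2] at h
  have h3 : (g.1.1 *ᵥ Pi.single j.succ 1) 0 = g.1.1 0 j.succ := by simp
  rw [h3] at h
  rw [h, neg_sq, ← inv_zero g]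
  exact col_zero _ _

theorem entry_bound {p : ℕ} (g : SO (J p)) (i j : Fin (p + 1)) :
    (g.1.1 i j) ^ 2 ≤ 1 + (g.1.1 0 0) ^ 2 := by
  refine Fin.cases ?_ (fun i => ?_) i
  · linarith [row_zero g j]
  refine Fin.cases ?_ (fun j => ?_) j
  · linarith [col_zero g i.succ]
  have h := bf_act g (Pi.single j.succ 1) (Pi.single j.succ 1)
  have he : ∀ k, (g.1.1 *ᵥ Pi.single j.succ 1) k = g.1.1 k j.succ := by
    intro k; simp
  have h2 : bf (Pi.single j.succ 1 : Fin (p + 1) → ℝ) (Pi.single j.succ 1) = -1 := by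
    simp [bf, Pi.single_apply]
  rw [h2] at h
  simp only [bf, he] at h
  have h1 : g.1.1 i.succ j.succ * g.1.1 i.succ j.succ
      ≤ ∑ i : Fin p, g.1.1 i.succ j.succ * g.1.1 i.succ j.succ :=
    Finset.single_le_sum (f := fun i : Fin p => g.1.1 i.succ j.succ * g.1.1 i.succ j.succ)
      (fun i _ => mul_self_nonneg _) (Finset.mem_univ i)
  have h3 := row_zero g j.succ
  nlinarith

theorem compact_ball (p : ℕ) (R : ℝ) : IsCompact {g : SO (J p) | |g.1.1 0 0| ≤ R} := by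
  set K : Set (Matrix (Fin (p + 1)) (Fin (p + 1)) ℝ) :=
    Set.pi Set.univ fun _ => Set.pi Set.univ fun _ => Set.Icc (-(1 + R ^ 2)) (1 + R ^ 2) with hK
  have hKc : IsCompact K := isCompact_univ_pi fun _ => isCompact_univ_pi fun _ => isCompact_Icc
  have hKc' : IsCompact (K ∩ {A | |A 0 0| ≤ R}) := by
    refine hKc.inter_right (isClosed_le ?_ continuous_const)
    fun_prop
  have h := (isClosedEmbedding_val (J p)).isCompact_preimage hKc'
  convert h using 1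
  ext g
  simp only [Set.mem_ofPred_eq, Set.mem_preimage, Set.mem_inter_iff]
  refine ⟨fun hg => ⟨?_, hg⟩, fun hg => hg.2⟩
  intro i _ j _
  have h1 := entry_bound g i j
  have h2 : (g.1.1 0 0) ^ 2 ≤ R ^ 2 := by
    rw [← sq_abs]
    exact pow_le_pow_left₀ (abs_nonneg _) hg 2
  have h3 : (g.1.1 i j) ^ 2 ≤ (1 + R ^ 2) ^ 2 := by nlinarith [sq_nonneg R]
  have h4 := abs_le_of_sq_le_sq h3 (by positivity)
  exact ⟨by linarith [abs_le.1 h4 |>.1], by linarith [abs_le.1 h4 |>.2]⟩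

/-- norm-decreasing step -/
theorem step {p : ℕ} (g : SO (J p)) (hg : 5 / 3 < |g.1.1 0 0|) :
    ∃ c : SO (J p), |c.1.1 0 0| ≤ 5 / 3 ∧ |(c * g).1.1 0 0| ≤ (13 / 20) * |g.1.1 0 0| := by
  set v : Fin (p + 1) → ℝ := g.1.1 *ᵥ e0 p with hv
  have hv0 : v 0 = g.1.1 0 0 := by simp [hv, e0]
  have hvv : bf v v = 1 := by rw [hv, bf_act, bf_e0_right, e0_zero]
  set n : ℝ := ∑ i : Fin p, v i.succ * v i.succ with hn
  have hn1 : n = v 0 ^ 2 - 1 := by
    have : v 0 * v 0 - n = 1 := hvv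
    nlinarith
  rw [← hv0] at hg ⊢
  have hn2 : (16 / 25) * v 0 ^ 2 ≤ n := by
    rw [hn1, ← sq_abs (v 0)]
    nlinarith
  have hnpos : 0 < n := by
    have : 0 < v 0 ^ 2 := by
      rw [← sq_abs]; positivity
    linarith
  set s : ℝ := Real.sqrt n with hs
  have hspos : 0 < s := Real.sqrt_pos.2 hnpos
  have hss : s * s = n := Real.mul_self_sqrt hnpos.le
  have hs1 : (4 / 5) * |v 0| ≤ s := by
    apply Real.le_sqrt_of_sq_le
    rw [mul_pow, sq_abs]
    linarith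
  have hs2 : s ≤ |v 0| := by
    rw [hs, Real.sqrt_le_left (abs_nonneg _), sq_abs, hn1]
    linarith
  obtain ⟨σ, hσ1, hσ2⟩ : ∃ σ : ℝ, σ * σ = 1 ∧ v 0 = σ * |v 0| := by
    rcases le_total 0 (v 0) with h | h
    · exact ⟨1, by norm_num, by rw [abs_of_nonneg h, one_mul]⟩
    · exact ⟨-1, by norm_num, by rw [abs_of_nonpos h]; ring⟩
  set w : Fin (p + 1) → ℝ := Fin.cons (5 / 4) (fun i => (3 / 4) * (σ / s) * v i.succ) with hw
  have hww : bf w w = 1 := by
    simp only [bf, hw, Fin.cons_zero, Fin.cons_succ]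
    have : ∑ i : Fin p, 3 / 4 * (σ / s) * v i.succ * (3 / 4 * (σ / s) * v i.succ)
        = 9 / 16 * ((σ * σ) / (s * s)) * n := by
      rw [hn, Finset.mul_sum]
      exact Finset.sum_congr rfl fun i _ => by ring
    rw [this, hσ1, hss]
    field_simp
    norm_num
  have hvw : bf v w = σ * ((5 / 4) * |v 0| - (3 / 4) * s) := by
    simp only [bf, hw, Fin.cons_zero, Fin.cons_succ]
    have : ∑ i : Fin p, v i.succ * (3 / 4 * (σ / s) * v i.succ) = 3 / 4 * (σ / s) * n := by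
      rw [hn, Finset.mul_sum]
      exact Finset.sum_congr rfl fun i _ => by ring
    rw [this, ← hss]
    field_simp
    nth_rewrite 1 [hσ2]
    ring
  have hw0 : w 0 = 5 / 4 := by simp [hw]
  obtain ⟨c, hc⟩ := exists_move w hww (by rw [hw0]; norm_num)
  refine ⟨c, ?_, ?_⟩
  · have h1 : c.1.1 0 0 = bf (c.1.1 *ᵥ e0 p) (e0 p) := by
      rw [bf_e0_right]; simp [e0]
    have h2 : bf (c.1.1 *ᵥ e0 p) (e0 p) = bf (c.1.1 *ᵥ e0 p) (c.1.1 *ᵥ w) := by rw [hc]
    rw [h1, h2, bf_act, bf_e0_left, hw0]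
    norm_num
  · have h1 : (c * g).1.1 0 0 = bf (c.1.1 *ᵥ v) (e0 p) := by
      rw [bf_e0_right, hv, mulVec_mulVec, ← coe_mul']; simp [e0]
    rw [h1, ← hc, bf_act, hvw, abs_mul]
    have h2 : |σ| = 1 := by
      have h4 : |σ| * |σ| = 1 := by rw [← abs_mul, hσ1, abs_one]
      nlinarith [abs_nonneg σ]
    rw [h2, one_mul, abs_of_nonneg (by nlinarith [abs_nonneg (v 0)])]
    nlinarith

/-- compact generation of `SO(1,p)` -/
theorem closure_ball (p : ℕ) :
    Subgroup.closure {g : SO (J p) | |g.1.1 0 0| ≤ 5 / 3} = ⊤ := by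
  have key : ∀ n : ℕ, ∀ g : SO (J p), |g.1.1 0 0| ≤ (5 / 3) * (20 / 13) ^ n →
      g ∈ Subgroup.closure {g : SO (J p) | |g.1.1 0 0| ≤ 5 / 3} := by
    intro n
    induction n with
    | zero =>
      intro g hg
      exact Subgroup.subset_closure (by simpa using hg)
    | succ n ih =>
      intro g hg
      rcases le_or_gt (|g.1.1 0 0|) (5 / 3) with h | h
      · exact Subgroup.subset_closure h
      · obtain ⟨c, hc1, hc2⟩ := step g h
        have h1 := ih (c * g) (hc2.trans (by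
          calc (13 / 20) * |g.1.1 0 0| ≤ (13 / 20) * ((5 / 3) * (20 / 13) ^ (n + 1)) := by gcongr
            _ = (5 / 3) * (20 / 13) ^ n := by rw [pow_succ]; ring))
        have h2 : c ∈ Subgroup.closure {g : SO (J p) | |g.1.1 0 0| ≤ 5 / 3} :=
          Subgroup.subset_closure hc1
        have := Subgroup.mul_mem _ (Subgroup.inv_mem _ h2) h1
        simpa using this
  rw [eq_top_iff]
  intro g _
  obtain ⟨n, hn⟩ := pow_unbounded_of_one_lt (|g.1.1 0 0|) (show (1:ℝ) < 20 / 13 by norm_num)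
  exact key n g (hn.le.trans (by
    have : (0:ℝ) < (20 / 13) ^ n := by positivity
    linarith))

/-- a compact set of representatives for a cocompact subgroup -/
theorem exists_compact {G : Type*} [Group G] [TopologicalSpace G] [IsTopologicalGroup G]
    [LocallyCompactSpace G] (Γ : Subgroup G) (hc : CompactSpace (G ⧸ Γ)) :
    ∃ K : Set G, IsCompact K ∧ ∀ g : G, ∃ k ∈ K, ∃ γ ∈ Γ, g = k * γ := by
  have h1 : ∀ y : G ⧸ Γ, ∃ K : Set G, IsCompact K ∧ (QuotientGroup.mk '' K : Set (G ⧸ Γ)) ∈ 𝓝 y := by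
    intro y
    obtain ⟨x, rfl⟩ := QuotientGroup.mk_surjective y
    obtain ⟨K, hK, hx⟩ := exists_compact_mem_nhds x
    exact ⟨K, hK, QuotientGroup.isOpenMap_coe.image_mem_nhds hx⟩
  choose K hK hn using h1
  obtain ⟨t, -, ht⟩ := isCompact_univ.elim_nhds_subcover
    (fun y : G ⧸ Γ => (QuotientGroup.mk '' (K y) : Set (G ⧸ Γ))) (fun y _ => hn y)
  refine ⟨⋃ y ∈ t, K y, t.isCompact_biUnion fun y _ => hK y, fun g => ?_⟩
  have hg := ht (Set.mem_univ (QuotientGroup.mk g))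
  simp only [Set.mem_iUnion, Set.mem_image] at hg
  obtain ⟨y, hy, k, hk, hkg⟩ := hg
  refine ⟨k, by simp only [Set.mem_iUnion]; exact ⟨y, hy, hk⟩, k⁻¹ * g, ?_, by group⟩
  exact QuotientGroup.eq.1 hkg

theorem finite_inter {G : Type*} [Group G] [TopologicalSpace G] [IsTopologicalGroup G]
    [T2Space G] (Γ : Subgroup G) [DiscreteTopology Γ] {K : Set G} (hK : IsCompact K) :
    (K ∩ (Γ : Set G)).Finite := by
  have hΓ : IsClosed (Γ : Set G) := Subgroup.isClosed_of_discrete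
  have h1 : IsCompact (K ∩ (Γ : Set G)) := hK.inter_right hΓ
  have h2 : (Subtype.val ⁻¹' K : Set Γ).Finite := by
    have : IsCompact (Subtype.val ⁻¹' K : Set Γ) :=
      (hΓ.isClosedEmbedding_subtypeVal).isCompact_preimage hK
    exact this.finite_of_discrete
  have h3 : (K ∩ (Γ : Set G)) ⊆ Subtype.val '' (Subtype.val ⁻¹' K : Set Γ) := by
    rintro x ⟨hx, hxΓ⟩
    exact ⟨⟨x, hxΓ⟩, hx, rfl⟩
  exact (h2.image _).subset h3

/-- cocompact discrete subgroups of compactly generated groups are finitely generated -/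
theorem fg_of_cocompact {G : Type*} [Group G] [TopologicalSpace G] [IsTopologicalGroup G]
    [T2Space G] (Γ : Subgroup G) [DiscreteTopology Γ] {C K : Set G} (hC : IsCompact C)
    (hgen : Subgroup.closure C = ⊤) (hK : IsCompact K)
    (hKΓ : ∀ g : G, ∃ k ∈ K, ∃ γ ∈ Γ, g = k * γ) :
    ∃ F : Set G, F.Finite ∧ F ⊆ (Γ : Set G) ∧ Γ ≤ Subgroup.closure F := by
  set L : Set G := (fun x : G × G × G => x.1⁻¹ * x.2.1 * x.2.2) '' (K ×ˢ (C ∪ C⁻¹) ×ˢ K) with hL
  have hLc : IsCompact L := by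
    refine (hK.prod ((hC.union hC.inv).prod hK)).image ?_
    fun_prop
  set F : Set G := (L ∪ K) ∩ (Γ : Set G) with hF
  have hF' : F.Finite := finite_inter Γ (hLc.union hK)
  refine ⟨F, hF', Set.inter_subset_right, ?_⟩
  have hstep : ∀ c ∈ C ∪ C⁻¹, ∀ g : G, (∃ k ∈ K, ∃ γ ∈ Subgroup.closure F, g = k * γ) →
      (∃ k ∈ K, ∃ γ ∈ Subgroup.closure F, c * g = k * γ) := by
    rintro c hc g ⟨k, hk, γ, hγ, rfl⟩
    obtain ⟨k', hk', γ', hγ', he⟩ := hKΓ (c * k)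
    refine ⟨k', hk', γ' * γ, ?_, by rw [← mul_assoc, he, mul_assoc]⟩
    refine Subgroup.mul_mem _ (Subgroup.subset_closure ⟨Or.inl ⟨(k', c, k), ⟨hk', hc, hk⟩, ?_⟩,
      hγ'⟩) hγ
    simp only
    rw [mul_assoc, he]; group
  obtain ⟨k0, hk0, γ0, hγ0, h10⟩ := hKΓ 1
  have hall : ∀ x : G, ∀ g : G, (∃ k ∈ K, ∃ γ ∈ Subgroup.closure F, g = k * γ) →
      (∃ k ∈ K, ∃ γ ∈ Subgroup.closure F, x * g = k * γ) := by
    intro x
    have hx : x ∈ Subgroup.closure C := by rw [hgen]; trivial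
    induction hx using Subgroup.closure_induction'' with
    | one => intro g hg; simpa using hg
    | mem x hx => exact hstep x (Or.inl hx)
    | inv_mem x hx => exact hstep x⁻¹ (Or.inr (by simpa using hx))
    | mul x y _ _ hx hy =>
      intro g hg
      rw [mul_assoc]
      exact hx _ (hy _ hg)
  intro γ hγ
  obtain ⟨k, hk, γ', hγ', he⟩ := hall (γ * k0⁻¹) k0 ⟨k0, hk0, 1, Subgroup.one_mem _, by simp⟩
  have he' : γ = k * γ' := by
    rw [← he]; group
  -- γ = k γ', k = γ γ'⁻¹ ∈ Γ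
  have hFΓ : Subgroup.closure F ≤ Γ := (Subgroup.closure_le _).2 Set.inter_subset_right
  have hkΓ : k ∈ Γ := by
    have : k = γ * γ'⁻¹ := by rw [he']; group
    rw [this]
    exact Γ.mul_mem hγ (Γ.inv_mem (hFΓ hγ'))
  rw [he']
  exact Subgroup.mul_mem _ (Subgroup.subset_closure ⟨Or.inr hk, hkΓ⟩) hγ'

/-- cocompactness via compact representatives -/
def Coco {G : Type*} [Group G] [TopologicalSpace G] (Γ : Subgroup G) : Prop :=
  ∃ K : Set G, IsCompact K ∧ ∀ g : G, ∃ k ∈ K, ∃ γ ∈ Γ, g = k * γ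

theorem gamma_unbounded {p : ℕ} (hp : 1 ≤ p) (Γ : Subgroup (SO (J p))) (hΓ : Coco Γ)
    (v : Fin (p + 1) → ℝ) (hv : v ≠ 0) (R : ℝ) : ∃ γ ∈ Γ, R < ‖γ.1.1 *ᵥ v‖ := by
  obtain ⟨K, hK, hKΓ⟩ := hΓ
  by_contra! hcon
  have hcont : Continuous fun g : SO (J p) => g.1.1 0 := by
    have : Continuous fun g : SO (J p) => g.1.1 := (isClosedEmbedding_val (J p)).continuous
    fun_prop
  obtain ⟨C, hC⟩ := hK.exists_bound_of_continuousOn hcont.continuousOn
  obtain ⟨g, hg⟩ := orbit_unbounded hp v hv ((p + 1) * (C * R))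
  obtain ⟨k, hk, γ, hγ, rfl⟩ := hKΓ g
  have h1 : ((k * γ).1.1 *ᵥ v) 0 = ∑ j, k.1.1 0 j * (γ.1.1 *ᵥ v) j := by
    rw [coe_mul', ← mulVec_mulVec]; rfl
  rw [h1] at hg
  have h2 : |∑ j, k.1.1 0 j * (γ.1.1 *ᵥ v) j| ≤ ∑ j : Fin (p + 1), C * R := by
    refine (Finset.abs_sum_le_sum_abs _ _).trans (Finset.sum_le_sum fun j _ => ?_)
    rw [abs_mul]
    have h3 : |k.1.1 0 j| ≤ C := (norm_le_pi_norm (k.1.1 0) j).trans (hC k hk)
    have h4 : |(γ.1.1 *ᵥ v) j| ≤ R := (norm_le_pi_norm (γ.1.1 *ᵥ v) j).trans (hcon γ hγ)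
    have h5 : 0 ≤ C := (abs_nonneg _).trans h3
    gcongr
  rw [Finset.sum_const, Finset.card_univ, Fintype.card_fin, nsmul_eq_mul] at h2
  push_cast at h2
  linarith

theorem continuous_bf {p : ℕ} : Continuous fun w : Fin (p + 1) → ℝ => bf w w := by
  unfold bf
  fun_prop

/-- no invariant negative definite subspace -/
theorem no_neg {p : ℕ} (hp : 1 ≤ p) (Γ : Subgroup (SO (J p))) (hΓ : Coco Γ)
    (N : Submodule ℝ (Fin (p + 1) → ℝ)) (hN : ∀ γ ∈ Γ, ∀ w ∈ N, γ.1.1 *ᵥ w ∈ N)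
    (hneg : ∀ w ∈ N, w ≠ 0 → bf w w < 0) : N = ⊥ := by
  by_contra hne
  obtain ⟨v, hvN, hv⟩ := Submodule.exists_mem_ne_zero_of_ne_bot hne
  have hvn : 0 < ‖v‖ := norm_pos_iff.2 hv
  set S : Set (Fin (p + 1) → ℝ) := Metric.sphere 0 1 ∩ (N : Set (Fin (p + 1) → ℝ)) with hS
  have hSc : IsCompact S := (isCompact_sphere _ _).inter_right N.closed_of_finiteDimensional
  have hSne : S.Nonempty := ⟨(‖v‖)⁻¹ • v, by
    simp [norm_smul, hvn.ne'], N.smul_mem _ hvN⟩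
  obtain ⟨w0, hw0, hmax⟩ := hSc.exists_isMaxOn hSne continuous_bf.continuousOn
  have hw0ne : w0 ≠ 0 := by
    intro h
    have := hw0.1
    simp [h] at this
  have hc : bf w0 w0 < 0 := hneg w0 hw0.2 hw0ne
  set c : ℝ := - bf w0 w0 with hcdef
  have hcpos : 0 < c := by linarith
  have hbound : ∀ w ∈ N, c * ‖w‖ ^ 2 ≤ - bf w w := by
    intro w hw
    by_cases hw1 : w = 0
    · simp [hw1, bf_zero_right]
    have hwn : 0 < ‖w‖ := norm_pos_iff.2 hw1
    have hm := hmax (show (‖w‖)⁻¹ • w ∈ S from ⟨by simp [norm_smul, hwn.ne'], N.smul_mem _ hw⟩)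
    simp only [Set.mem_ofPred_eq] at hm
    rw [bf_smul_left, bf_smul_right] at hm
    have h2 : bf w w ≤ ‖w‖ ^ 2 * bf w0 w0 := by
      have h3 : bf w w = ‖w‖ ^ 2 * (‖w‖⁻¹ * (‖w‖⁻¹ * bf w w)) := by field_simp
      rw [h3]
      gcongr
    rw [hcdef]; linarith
  obtain ⟨γ, hγ, hlt⟩ := gamma_unbounded hp Γ hΓ v hv (1 + (- bf v v) / c)
  have h1 := hbound _ (hN γ hγ v hvN)
  rw [bf_act] at h1
  have h2 : 0 ≤ (- bf v v) / c := by
    have := hneg v hvN hv
    exact div_nonneg (by linarith) hcpos.le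
  have h3 : ‖γ.1.1 *ᵥ v‖ ^ 2 ≤ (- bf v v) / c := by
    rw [le_div_iff₀ hcpos]; linarith
  nlinarith [norm_nonneg (γ.1.1 *ᵥ v)]

/-- no invariant null line -/
theorem no_null {p : ℕ} (hp : 2 ≤ p) (Γ : Subgroup (SO (J p))) (hΓ : Coco Γ) [DiscreteTopology Γ]
    (e : Fin (p + 1) → ℝ) (he : e ≠ 0) (hee : bf e e = 0)
    (hinv : ∀ γ ∈ Γ, ∃ c : ℝ, γ.1.1 *ᵥ e = c • e) : False := by
  -- an element expanding e
  obtain ⟨γ₀, hγ₀, μ, hμ, hμe⟩ : ∃ γ ∈ Γ, ∃ μ : ℝ, 1 < |μ| ∧ γ.1.1 *ᵥ e = μ • e := by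
    obtain ⟨γ, hγ, hlt⟩ := gamma_unbounded (by omega) Γ hΓ e he ‖e‖
    obtain ⟨c, hc⟩ := hinv γ hγ
    refine ⟨γ, hγ, c, ?_, hc⟩
    rw [hc, norm_smul, Real.norm_eq_abs] at hlt
    have : 0 < ‖e‖ := norm_pos_iff.2 he
    by_contra! h
    nlinarith
  have hμ0 : μ ≠ 0 := by
    intro h; rw [h, abs_zero] at hμ; linarith
  have hμ2 : 1 < μ ^ 2 := by rw [← sq_abs]; nlinarith
  -- eigenvector f
  obtain ⟨f, hf0, hfi⟩ : ∃ f : Fin (p + 1) → ℝ, f ≠ 0 ∧ (γ₀⁻¹).1.1 *ᵥ f = μ • f := by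
    have h1 : (γ₀.1.1 - Matrix.scalar _ μ).det = 0 := by
      rw [← exists_mulVec_eq_zero_iff]
      refine ⟨e, he, ?_⟩
      rw [sub_mulVec, hμe]
      simp
    obtain ⟨v, hv0, hv⟩ := exists_vecMul_eq_zero_iff.2 h1
    have hv' : v ᵥ* γ₀.1.1 = μ • v := by
      rw [vecMul_sub] at hv
      have := sub_eq_zero.1 hv
      rw [this]
      ext i
      simp [mul_comm]
    have hJJ : ∀ y : Fin (p + 1) → ℝ, J p *ᵥ (J p *ᵥ y) = y := fun y => by
      rw [mulVec_mulVec, J_mul_J, one_mulVec]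
    refine ⟨J p *ᵥ v, ?_, ?_⟩
    · intro h
      apply hv0
      rw [← hJJ v, h, mulVec_zero]
    · have : ∀ x, bf ((γ₀⁻¹).1.1 *ᵥ (J p *ᵥ v) - μ • (J p *ᵥ v)) x = 0 := by
        intro x
        rw [bf_sub_left, bf_comm, ← bf_act_inv, bf_smul_left, bf_comm _ x, ← dot_J, ← dot_J, hJJ,
          dotProduct_comm, dotProduct_mulVec, hv', dotProduct_comm x v]
        simp
      exact sub_eq_zero.1 (bf_nondeg this)
  have hf : γ₀.1.1 *ᵥ f = μ⁻¹ • f := by
    have h1 : γ₀.1.1 *ᵥ (μ • f) = f := by rw [← hfi, mulVec_inv_mulVec]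
    rw [mulVec_smul] at h1
    calc γ₀.1.1 *ᵥ f = μ⁻¹ • (μ • (γ₀.1.1 *ᵥ f)) := by
          rw [smul_smul, inv_mul_cancel₀ hμ0, one_smul]
      _ = μ⁻¹ • f := by rw [h1]
  have hff : bf f f = 0 := by
    have h1 := bf_act γ₀⁻¹ f f
    rw [hfi, bf_smul_left, bf_smul_right] at h1
    have h2 : (μ ^ 2 - 1) * bf f f = 0 := by linarith
    rcases mul_eq_zero.1 h2 with h | h
    · linarith
    · exact h
  have hef : bf e f ≠ 0 := by
    intro h
    obtain ⟨c, hc⟩ := causal he hee.ge hff.ge h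
    have h1 : γ₀.1.1 *ᵥ f = μ • f := by
      rw [hc, mulVec_smul, hμe, smul_smul, smul_smul, mul_comm]
    rw [hf] at h1
    have h2 : (μ⁻¹ - μ) • f = 0 := by rw [sub_smul, h1, sub_self]
    rcases smul_eq_zero.1 h2 with h | h
    · have : μ⁻¹ * μ = μ * μ := by rw [sub_eq_zero.1 h]
      rw [inv_mul_cancel₀ hμ0] at this
      nlinarith
    · exact hf0 h
  -- normalise f
  obtain ⟨f, hf0, hf, hff, hef⟩ : ∃ f : Fin (p + 1) → ℝ, f ≠ 0 ∧ γ₀.1.1 *ᵥ f = μ⁻¹ • f ∧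
      bf f f = 0 ∧ bf e f = 1 := by
    refine ⟨(bf e f)⁻¹ • f, smul_ne_zero (inv_ne_zero hef) hf0, ?_, ?_, ?_⟩
    · rw [mulVec_smul, hf, smul_comm]
    · rw [bf_smul_left, bf_smul_right, hff]; ring
    · rw [bf_smul_right, inv_mul_cancel₀ hef]
  obtain ⟨z, hz⟩ : ∃ z, z = e + f := ⟨_, rfl⟩
  have hzz : bf z z = 2 := by
    rw [hz, bf_add_left, bf_add_right, bf_add_right, hee, hff, hef, bf_comm f e, hef]; norm_num
  -- some element moves the line of f
  obtain ⟨γ, hγ, hγf⟩ : ∃ γ ∈ Γ, ∀ c : ℝ, γ.1.1 *ᵥ f ≠ c • f := by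
    by_contra! hcon
    set U : Submodule ℝ (Fin (p + 1) → ℝ) :=
      { carrier := {u | bf e u = 0 ∧ bf f u = 0}
        add_mem' := by
          rintro a b ⟨h1, h2⟩ ⟨h3, h4⟩
          exact ⟨by rw [bf_add_right, h1, h3, add_zero], by rw [bf_add_right, h2, h4, add_zero]⟩
        zero_mem' := ⟨bf_zero_right _, bf_zero_right _⟩
        smul_mem' := by
          rintro c a ⟨h1, h2⟩
          exact ⟨by rw [bf_smul_right, h1, mul_zero], by rw [bf_smul_right, h2, mul_zero]⟩ } with hU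
    have hUbot : U = ⊥ := by
      refine no_neg (by omega) Γ hΓ U ?_ ?_
      · rintro δ hδ u ⟨hu1, hu2⟩
        have h1 : ∀ x y : Fin (p + 1) → ℝ, bf x (δ.1.1 *ᵥ y) = bf ((δ⁻¹).1.1 *ᵥ x) y := by
          intro x y
          rw [bf_comm, bf_act_inv, bf_comm]
        obtain ⟨c1, hc1⟩ := hinv δ⁻¹ (Γ.inv_mem hδ)
        obtain ⟨c2, hc2⟩ := hcon δ⁻¹ (Γ.inv_mem hδ)
        exact ⟨by rw [h1, hc1, bf_smul_left, hu1, mul_zero],
          by rw [h1, hc2, bf_smul_left, hu2, mul_zero]⟩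
      · rintro u ⟨hu1, hu2⟩ hu0
        by_contra! hge
        have hz0 : z ≠ 0 := by
          intro h; rw [h, bf_zero_left] at hzz; norm_num at hzz
        have hzu : bf z u = 0 := by rw [hz, bf_add_left, hu1, hu2, add_zero]
        obtain ⟨c, hc⟩ := causal hz0 (by rw [hzz]; norm_num) hge hzu
        rw [hc, bf_smul_right, hzz] at hzu
        have : c = 0 := by linarith
        exact hu0 (by rw [hc, this, zero_smul])
    -- dimension count
    set L : (Fin (p + 1) → ℝ) →ₗ[ℝ] (Fin 2 → ℝ) :=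
      { toFun := fun u => ![bf e u, bf f u]
        map_add' := by
          intro a b
          ext i; fin_cases i <;> simp [bf_add_right]
        map_smul' := by
          intro c a
          ext i; fin_cases i <;> simp [bf_smul_right] } with hL
    have hker : LinearMap.ker L ≠ ⊥ := by
      apply LinearMap.ker_ne_bot_of_finrank_lt
      simp
      omega
    obtain ⟨u, hu, hu0⟩ := Submodule.exists_mem_ne_zero_of_ne_bot hker
    have hu' : L u = 0 := hu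
    have h1 : bf e u = 0 := by simpa [hL] using congrFun hu' 0
    have h2 : bf f u = 0 := by simpa [hL] using congrFun hu' 1
    have h3 : u ∈ U := ⟨h1, h2⟩
    rw [hUbot] at h3
    exact hu0 (by simpa using h3)
  -- powers of γ₀
  have hpe : ∀ n : ℕ, (γ₀ ^ n).1.1 *ᵥ e = (μ ^ n) • e := by
    intro n
    induction n with
    | zero => simp
    | succ n ih =>
      rw [pow_succ, coe_mul', ← mulVec_mulVec, hμe, mulVec_smul, ih, smul_smul, pow_succ, mul_comm]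
  have hpf : ∀ n : ℕ, (γ₀ ^ n).1.1 *ᵥ f = ((μ⁻¹) ^ n) • f := by
    intro n
    induction n with
    | zero => simp
    | succ n ih =>
      rw [pow_succ, coe_mul', ← mulVec_mulVec, hf, mulVec_smul, ih, smul_smul, pow_succ, mul_comm]
  obtain ⟨κ, hκ⟩ := hinv γ hγ
  obtain ⟨κ', hκ'⟩ := hinv γ⁻¹ (Γ.inv_mem hγ)
  have hconj : ∀ (δ : SO (J p)) (c : ℝ), δ.1.1 *ᵥ e = c • e → ∀ n : ℕ,
      ((γ₀ ^ n)⁻¹ * δ * γ₀ ^ n).1.1 *ᵥ e = c • e := by
    intro δ c hδ n
    rw [coe_mul', coe_mul', ← mulVec_mulVec, ← mulVec_mulVec, hpe, mulVec_smul, hδ, mulVec_smul,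
      mulVec_smul]
    have : ((γ₀ ^ n)⁻¹).1.1 *ᵥ e = (μ ^ n)⁻¹ • e := by
      have h1 : ((γ₀ ^ n)⁻¹).1.1 *ᵥ ((γ₀ ^ n).1.1 *ᵥ e) = e := inv_mulVec_mulVec _ _
      rw [hpe, mulVec_smul] at h1
      have h2 : μ ^ n ≠ 0 := pow_ne_zero _ hμ0
      calc _ = (μ ^ n)⁻¹ • (μ ^ n • (((γ₀ ^ n)⁻¹).1.1 *ᵥ e)) := by
            rw [smul_smul, inv_mul_cancel₀ h2, one_smul]
        _ = _ := by rw [h1]
    rw [this, smul_smul, smul_smul]
    congr 1
    have h2 : μ ^ n ≠ 0 := pow_ne_zero _ hμ0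
    field_simp
  -- boundedness
  have hbd : ∀ n : ℕ, |bf (((γ₀ ^ n)⁻¹ * γ * γ₀ ^ n).1.1 *ᵥ z) z|
      ≤ |κ| + |κ'| + |bf (γ.1.1 *ᵥ f) f| := by
    intro n
    set δ := (γ₀ ^ n)⁻¹ * γ * γ₀ ^ n with hδ
    have h1 : δ.1.1 *ᵥ e = κ • e := hconj γ κ hκ n
    have h2 : (δ⁻¹).1.1 *ᵥ e = κ' • e := by
      have : δ⁻¹ = (γ₀ ^ n)⁻¹ * γ⁻¹ * γ₀ ^ n := by rw [hδ]; group
      rw [this]
      exact hconj γ⁻¹ κ' hκ' n
    have h3 : bf (δ.1.1 *ᵥ f) f = (μ⁻¹ ^ n) ^ 2 * bf (γ.1.1 *ᵥ f) f := by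
      rw [hδ, coe_mul', coe_mul', ← mulVec_mulVec, ← mulVec_mulVec, bf_act_inv, inv_inv, hpf,
        mulVec_smul, bf_smul_left, bf_smul_right]
      ring
    have h4 : bf (δ.1.1 *ᵥ z) z = κ + κ' + (μ⁻¹ ^ n) ^ 2 * bf (γ.1.1 *ᵥ f) f := by
      rw [hz, mulVec_add, bf_add_left, bf_add_right, bf_add_right, h3, h1, bf_act_inv δ f e, h2,
        bf_smul_left, bf_smul_left, bf_smul_right, hee, hef, bf_comm f e, hef]
      ring
    rw [h4]
    have h5 : (μ⁻¹ ^ n) ^ 2 ≤ 1 := by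
      rw [← pow_mul, mul_comm, pow_mul, inv_pow]
      exact pow_le_one₀ (by positivity) (inv_le_one_of_one_le₀ hμ2.le)
    calc _ ≤ |κ| + |κ'| + |(μ⁻¹ ^ n) ^ 2 * bf (γ.1.1 *ᵥ f) f| :=
          (abs_add_le _ _).trans (by gcongr; exact abs_add_le _ _)
      _ ≤ _ := by
          rw [abs_mul, abs_of_nonneg (by positivity : 0 ≤ (μ⁻¹ ^ n) ^ 2)]
          nlinarith [abs_nonneg (bf (γ.1.1 *ᵥ f) f)]
  -- move z to e_0
  obtain ⟨c, s, hs, hcz⟩ : ∃ c : SO (J p), ∃ s : ℝ, s * s = 1 / 2 ∧ c.1.1 *ᵥ (s • z) = e0 p := by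
    have hz0 : 2 ≤ z 0 * z 0 := by
      have h1 : z 0 * z 0 - ∑ i : Fin p, z i.succ * z i.succ = 2 := hzz
      have h2 : 0 ≤ ∑ i : Fin p, z i.succ * z i.succ :=
        Finset.sum_nonneg fun i _ => mul_self_nonneg _
      linarith
    have hs2 : (Real.sqrt (1 / 2)) * Real.sqrt (1 / 2) = 1 / 2 :=
      Real.mul_self_sqrt (by norm_num)
    have hs0 : 0 < Real.sqrt (1 / 2) := Real.sqrt_pos.2 (by norm_num)
    obtain ⟨s, hs, hsz⟩ : ∃ s : ℝ, s * s = 1 / 2 ∧ 0 < s * z 0 := by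
      rcases lt_or_ge 0 (z 0) with h | h
      · exact ⟨_, hs2, by positivity⟩
      · refine ⟨-Real.sqrt (1 / 2), by rw [neg_mul_neg, hs2], ?_⟩
        have : z 0 < 0 := lt_of_le_of_ne h (by
          intro h0; rw [h0] at hz0; norm_num at hz0)
        nlinarith
    obtain ⟨c, hc⟩ := exists_move (s • z) (by
      rw [bf_smul_left, bf_smul_right, hzz, ← mul_assoc, hs]; norm_num) (by simpa using hsz)
    exact ⟨c, s, hs, hc⟩
  -- all conjugates lie in a compact set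
  set B : Set (SO (J p)) := (fun g => c⁻¹ * g * c) ''
    {g : SO (J p) | |g.1.1 0 0| ≤ (|κ| + |κ'| + |bf (γ.1.1 *ᵥ f) f|) / 2} with hB
  have hBc : IsCompact B := (compact_ball p _).image (by fun_prop)
  have hmem : ∀ n : ℕ, ((γ₀ ^ n)⁻¹ * γ * γ₀ ^ n) ∈ B ∩ (Γ : Set (SO (J p))) := by
    intro n
    refine ⟨?_, Γ.mul_mem (Γ.mul_mem (Γ.inv_mem (Γ.pow_mem hγ₀ n)) hγ) (Γ.pow_mem hγ₀ n)⟩
    set δ := (γ₀ ^ n)⁻¹ * γ * γ₀ ^ n with hδ
    refine ⟨c * δ * c⁻¹, ?_, by group⟩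
    simp only [Set.mem_ofPred_eq]
    have h1 : (c * δ * c⁻¹).1.1 0 0 = bf ((c * δ * c⁻¹).1.1 *ᵥ e0 p) (e0 p) := by
      rw [bf_e0_right]; simp [e0]
    have h2 : (c⁻¹).1.1 *ᵥ e0 p = s • z := by rw [← hcz, inv_mulVec_mulVec]
    rw [h1, coe_mul', coe_mul', ← mulVec_mulVec, ← mulVec_mulVec, bf_act_inv, h2, mulVec_smul,
      bf_smul_left, bf_smul_right, ← mul_assoc, hs, abs_mul, abs_of_pos (by norm_num)]
    have := hbd n
    rw [← hδ] at this
    linarith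
  have hfin := finite_inter Γ hBc
  obtain ⟨n, m, hnm, heq⟩ : ∃ n m : ℕ, n < m ∧
      (γ₀ ^ n)⁻¹ * γ * γ₀ ^ n = (γ₀ ^ m)⁻¹ * γ * γ₀ ^ m := by
    have hfin' : Finite (B ∩ (Γ : Set (SO (J p))) : Set (SO (J p))) := hfin
    obtain ⟨n, m, hne, heq⟩ := Finite.exists_ne_map_eq_of_infinite
      (fun n : ℕ => (⟨_, hmem n⟩ : (B ∩ (Γ : Set (SO (J p))) : Set (SO (J p)))))
    have heq' := congrArg Subtype.val heq
    simp only at heq'
    rcases lt_or_gt_of_ne hne with h | h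
    · exact ⟨n, m, h, heq'⟩
    · exact ⟨m, n, h, heq'.symm⟩
  obtain ⟨k, hk, rfl⟩ : ∃ k, 0 < k ∧ m = n + k := ⟨m - n, by omega, by omega⟩
  have hcomm : γ₀ ^ k * γ = γ * γ₀ ^ k := by
    have h1 : γ₀ ^ (n + k) = γ₀ ^ n * γ₀ ^ k := pow_add _ _ _
    have h1' : γ₀ ^ (n + k) = γ₀ ^ k * γ₀ ^ n := by rw [Nat.add_comm n k, pow_add]
    have h2 : γ₀ ^ (n + k) * ((γ₀ ^ n)⁻¹ * γ * γ₀ ^ n) * (γ₀ ^ n)⁻¹
        = γ₀ ^ (n + k) * ((γ₀ ^ (n + k))⁻¹ * γ * γ₀ ^ (n + k)) * (γ₀ ^ n)⁻¹ := by rw [heq]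
    have h3 : γ₀ ^ (n + k) * ((γ₀ ^ n)⁻¹ * γ * γ₀ ^ n) * (γ₀ ^ n)⁻¹ = γ₀ ^ k * γ := by
      rw [h1']; group
    have h4 : γ₀ ^ (n + k) * ((γ₀ ^ (n + k))⁻¹ * γ * γ₀ ^ (n + k)) * (γ₀ ^ n)⁻¹ = γ * γ₀ ^ k := by
      have : γ₀ ^ (n + k) * ((γ₀ ^ (n + k))⁻¹ * γ * γ₀ ^ (n + k)) * (γ₀ ^ n)⁻¹
        = γ * (γ₀ ^ (n + k) * (γ₀ ^ n)⁻¹) := by group
      rw [this, h1']; group
    rw [h3, h4] at h2
    exact h2
  have hBzero : bf (γ.1.1 *ᵥ f) f = 0 := by
    have h1 := bf_act (γ₀ ^ k) (γ.1.1 *ᵥ f) f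
    rw [mulVec_mulVec, ← coe_mul', hcomm, coe_mul', ← mulVec_mulVec, hpf, mulVec_smul, bf_smul_left,
      bf_smul_right] at h1
    have h2 : (μ⁻¹ ^ k) * (μ⁻¹ ^ k) < 1 := by
      rw [← pow_add, ← two_mul, pow_mul, inv_pow]
      exact pow_lt_one₀ (by positivity) (inv_lt_one_of_one_lt₀ hμ2) hk.ne'
    have h3 : ((μ⁻¹ ^ k) * (μ⁻¹ ^ k) - 1) * bf (γ.1.1 *ᵥ f) f = 0 := by linarith
    rcases mul_eq_zero.1 h3 with h | h
    · linarith
    · exact h
  obtain ⟨c', hc'⟩ := causal hf0 hff.ge (by rw [bf_act γ f f, hff]) (by rw [bf_comm]; exact hBzero)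
  exact hγf c' hc'

/-- a discrete cocompact subgroup of `SO(1,p)` acts irreducibly -/
theorem irreducible {p : ℕ} (hp : 2 ≤ p) (Γ : Subgroup (SO (J p))) (hΓ : Coco Γ)
    [DiscreteTopology Γ] (W : Submodule ℝ (Fin (p + 1) → ℝ))
    (hW : ∀ γ ∈ Γ, ∀ w ∈ W, γ.1.1 *ᵥ w ∈ W) : W = ⊥ ∨ W = ⊤ := by
  by_contra! hcon
  obtain ⟨hbot, htop⟩ := hcon
  set W' : Submodule ℝ (Fin (p + 1) → ℝ) :=
    { carrier := {y | ∀ w ∈ W, bf w y = 0}
      add_mem' := by
        intro a b ha hb w hw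
        rw [bf_add_right, ha w hw, hb w hw, add_zero]
      zero_mem' := fun w _ => bf_zero_right _
      smul_mem' := by
        intro c a ha w hw
        rw [bf_smul_right, ha w hw, mul_zero] } with hW'
  have hW'inv : ∀ γ ∈ Γ, ∀ w ∈ W', γ.1.1 *ᵥ w ∈ W' := by
    intro γ hγ y hy w hw
    have h1 : bf w (γ.1.1 *ᵥ y) = bf ((γ⁻¹).1.1 *ᵥ w) y := by
      rw [bf_comm, bf_act_inv, bf_comm]
    rw [h1]
    exact hy _ (hW γ⁻¹ (Γ.inv_mem hγ) w hw)
  have hW'bot : W' ≠ ⊥ := by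
    obtain ⟨φ, hφ0, hφ⟩ := Submodule.exists_le_ker_of_lt_top W (lt_top_iff_ne_top.2 htop)
    intro hb
    have hJJ : ∀ y : Fin (p + 1) → ℝ, J p *ᵥ (J p *ᵥ y) = y := fun y => by
      rw [mulVec_mulVec, J_mul_J, one_mulVec]
    have hφ' : ∀ w, w ⬝ᵥ (fun i => φ (Pi.single i 1)) = φ w := by
      intro w
      have : w = ∑ i, w i • (Pi.single i 1 : Fin (p + 1) → ℝ) := by
        ext j; simp [Finset.sum_apply, Pi.single_apply]
      conv_rhs => rw [this]
      simp [dotProduct]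
    have hmem : J p *ᵥ (fun i => φ (Pi.single i 1)) ∈ W' := by
      intro w hw
      rw [← dot_J, hJJ, hφ']
      exact hφ hw
    rw [hb] at hmem
    have h0 : (fun i => φ (Pi.single i 1)) = (0 : Fin (p + 1) → ℝ) := by
      rw [← hJJ (fun i => φ (Pi.single i 1)), (Submodule.mem_bot ℝ).1 hmem, mulVec_zero]
    apply hφ0
    ext i
    simpa using congrFun h0 i
  by_cases hR : W ⊓ W' = ⊥
  · have hneg : (∀ w ∈ W, w ≠ 0 → bf w w < 0) ∨ (∀ w ∈ W', w ≠ 0 → bf w w < 0) := by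
      by_contra! h
      obtain ⟨⟨x, hx, hx0, hxx⟩, ⟨y, hy, hy0, hyy⟩⟩ := h
      obtain ⟨c, hc⟩ := causal hx0 hxx hyy (hy x hx)
      have : y ∈ W ⊓ W' := ⟨by rw [hc]; exact W.smul_mem c hx, hy⟩
      rw [hR] at this
      exact hy0 ((Submodule.mem_bot ℝ).1 this)
    rcases hneg with h | h
    · exact hbot (no_neg (by omega) Γ hΓ W hW h)
    · exact hW'bot (no_neg (by omega) Γ hΓ W' hW'inv h)
  · obtain ⟨e, ⟨heW, heW'⟩, he0⟩ := Submodule.exists_mem_ne_zero_of_ne_bot hR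
    refine no_null hp Γ hΓ e he0 (heW' e heW) fun γ hγ => ?_
    exact causal he0 (heW' e heW).ge
      ((hW'inv γ hγ e heW') _ (hW γ hγ e heW)).ge (hW'inv γ hγ e heW' e heW)

/-- a continuous linear anti-involution -/
structure AntiInv {A : Type*} [Ring A] [Module ℝ A] [TopologicalSpace A] (σ : A → A) : Prop where
  cont : Continuous σ
  add : ∀ a b, σ (a + b) = σ a + σ b
  sub : ∀ a b, σ (a - b) = σ a - σ b
  smul : ∀ (r : ℝ) a, σ (r • a) = r • σ a
  mul : ∀ a b, σ (a * b) = σ b * σ a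
  one : σ 1 = 1
  inv : ∀ a, σ (σ a) = a

section
variable {𝔸 : Type*} [NormedRing 𝔸] [NormedAlgebra ℝ 𝔸] [CompleteSpace 𝔸]

/-- Fixed point lemma. -/
theorem fixpt (c : ℝ) (hc : |c| ≤ 4) (y : 𝔸) (hy : ‖y‖ ≤ 1/32) (S : Set 𝔸) (hS : IsClosed S)
    (h0 : (0:𝔸) ∈ S) (hmap : ∀ h ∈ S, y + (c • y) * h + h * h - (c • y) * (h * h) ∈ S) :
    ∃ h ∈ S, ‖h‖ ≤ 4 * ‖y‖ ∧ y + (c • y) * h + h * h - (c • y) * (h * h) = h := by
  set Φ : 𝔸 → 𝔸 := fun h => y + (c • y) * h + h * h - (c • y) * (h * h) with hΦ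
  have hcy : ‖c • y‖ ≤ 1/8 := by
    rw [norm_smul, Real.norm_eq_abs]
    calc |c| * ‖y‖ ≤ 4 * (1/32) := by gcongr
      _ = 1/8 := by norm_num
  set T : Set 𝔸 := S ∩ Metric.closedBall 0 (1/4) with hT
  have hTc : IsComplete T := (hS.inter Metric.isClosed_closedBall).isComplete
  have hbd : ∀ h ∈ T, ‖h‖ ≤ 1/4 := fun h hh => by simpa using hh.2
  have hdiff : ∀ g ∈ T, ∀ h ∈ T, ‖Φ g - Φ h‖ ≤ (11/16) * ‖g - h‖ := by
    intro g hg h hh
    have hg' := hbd g hg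
    have hh' := hbd h hh
    have e1 : Φ g - Φ h = (c • y) * (g - h) + (g * (g - h) + (g - h) * h)
        - (c • y) * (g * (g - h) + (g - h) * h) := by
      simp only [hΦ]; noncomm_ring
    have e2 : ‖g * (g - h) + (g - h) * h‖ ≤ (1/2) * ‖g - h‖ := by
      calc ‖g * (g - h) + (g - h) * h‖ ≤ ‖g‖ * ‖g - h‖ + ‖g - h‖ * ‖h‖ :=
            (norm_add_le _ _).trans (add_le_add (norm_mul_le _ _) (norm_mul_le _ _))
        _ ≤ (1/4) * ‖g - h‖ + ‖g - h‖ * (1/4) := by gcongr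
        _ = (1/2) * ‖g - h‖ := by ring
    rw [e1]
    calc _ ≤ ‖(c • y) * (g - h)‖ + ‖(g * (g - h) + (g - h) * h)‖
          + ‖(c • y) * (g * (g - h) + (g - h) * h)‖ := by
            refine (norm_sub_le _ _).trans ?_
            gcongr
            exact norm_add_le _ _
      _ ≤ (1/8) * ‖g - h‖ + (1/2) * ‖g - h‖ + (1/8) * ((1/2) * ‖g - h‖) := by
            gcongr
            · exact (norm_mul_le _ _).trans (by gcongr)
            · exact (norm_mul_le _ _).trans (by gcongr)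
      _ = (11/16) * ‖g - h‖ := by ring
  have h0T : (0:𝔸) ∈ T := ⟨h0, by simp⟩
  have hΦ0 : Φ 0 = y := by simp [hΦ]
  have hmapT : Set.MapsTo Φ T T := by
    intro h hh
    refine ⟨hmap h hh.1, ?_⟩
    have := hdiff h hh 0 h0T
    rw [hΦ0, sub_zero] at this
    have h1 := hbd h hh
    have : ‖Φ h‖ ≤ 1/4 := by
      calc ‖Φ h‖ = ‖(Φ h - y) + y‖ := by simp
        _ ≤ ‖Φ h - y‖ + ‖y‖ := norm_add_le _ _
        _ ≤ (11/16) * (1/4) + 1/32 := by
            have := this.trans (mul_le_mul_of_nonneg_left h1 (by norm_num))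
            linarith
        _ ≤ 1/4 := by norm_num
    simpa using this
  have hcon : ContractingWith (11/16 : NNReal) (hmapT.restrict Φ T T) := by
    refine ⟨by
      rw [← NNReal.coe_lt_coe]; norm_num, ?_⟩
    refine LipschitzWith.of_dist_le_mul ?_
    rintro ⟨g, hg⟩ ⟨h, hh⟩
    have := hdiff g hg h hh
    simpa [Subtype.dist_eq, dist_eq_norm] using this
  obtain ⟨h, hhT, hfix, -⟩ := hcon.exists_fixedPoint' hTc hmapT h0T (edist_ne_top _ _)
  refine ⟨h, hhT.1, ?_, hfix⟩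
  have h1 := hdiff h hhT 0 h0T
  rw [hΦ0, sub_zero, hfix.eq] at h1
  have : ‖h‖ ≤ ‖h - y‖ + ‖y‖ := by
    calc ‖h‖ = ‖(h - y) + y‖ := by simp
      _ ≤ _ := norm_add_le _ _
  nlinarith [norm_nonneg y]

omit [NormedAlgebra ℝ 𝔸] [CompleteSpace 𝔸] in
theorem bicomm_closed (x : 𝔸) : IsClosed {h : 𝔸 | ∀ z, z * x = x * z → z * h = h * z} := by
  have : {h : 𝔸 | ∀ z, z * x = x * z → z * h = h * z}
      = ⋂ z ∈ {z : 𝔸 | z * x = x * z}, {h : 𝔸 | z * h = h * z} := by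
    ext h; simp
  rw [this]
  refine isClosed_biInter fun z _ => ?_
  exact isClosed_eq (by fun_prop) (by fun_prop)

/-- the general construction: `S` = bicommutant of `x`, fixed by `σ`. -/
theorem fix_sub {σ : 𝔸 → 𝔸} (hσ : AntiInv σ) (c : ℝ) (hc : |c| ≤ 4) (x y : 𝔸)
    (hy : ‖y‖ ≤ 1/32) (hσy : σ y = y) (hyx : ∀ z, z * x = x * z → z * y = y * z)
    (hyy : y * x = x * y) :
    ∃ h : 𝔸, (∀ z, z * x = x * z → z * h = h * z) ∧ σ h = h ∧ ‖h‖ ≤ 4 * ‖y‖ ∧
      y + (c • y) * h + h * h - (c • y) * (h * h) = h := by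
  have key : ∀ h ∈ ({h : 𝔸 | ∀ z, z * x = x * z → z * h = h * z} ∩ {h | σ h = h}),
      y + (c • y) * h + h * h - (c • y) * (h * h) ∈
        ({h : 𝔸 | ∀ z, z * x = x * z → z * h = h * z} ∩ {h | σ h = h}) := by
    rintro h ⟨hh1, hh2⟩
    have hyh : y * h = h * y := hh1 y hyy
    refine ⟨?_, ?_⟩
    · intro z hz
      have a1 := hyx z hz
      have a2 := hh1 z hz
      have a3 : z * (h * h) = (h * h) * z := by
        rw [← mul_assoc, a2, mul_assoc, a2, ← mul_assoc]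
      have a4 : z * (c • y) = (c • y) * z := by
        rw [mul_smul_comm, a1, smul_mul_assoc]
      have a5 : z * ((c • y) * h) = ((c • y) * h) * z := by
        rw [← mul_assoc, a4, mul_assoc, a2, ← mul_assoc]
      have a6 : z * ((c • y) * (h * h)) = ((c • y) * (h * h)) * z := by
        rw [← mul_assoc, a4, mul_assoc, a3, ← mul_assoc]
      rw [mul_sub, mul_add, mul_add, a1, a3, a5, a6, sub_mul, add_mul, add_mul]
    · change σ _ = _
      have hh2' : σ h = h := hh2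
      rw [hσ.sub, hσ.add, hσ.add, hσ.mul, hσ.mul, hσ.mul, hσ.mul, hσ.smul, hσy, hh2']
      have b1 : h * (c • y) = (c • y) * h := by
        rw [mul_smul_comm, ← hyh, smul_mul_assoc]
      have b2 : (h * h) * (c • y) = (c • y) * (h * h) := by
        rw [mul_assoc, b1, ← mul_assoc, b1, mul_assoc]
      rw [b1, b2]
  have h0 : (0:𝔸) ∈ ({h : 𝔸 | ∀ z, z * x = x * z → z * h = h * z} ∩ {h | σ h = h}) := by
    refine ⟨fun z _ => by simp, ?_⟩
    have := hσ.smul 0 0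
    simpa using this
  obtain ⟨h, hS, h1, h2⟩ := fixpt c hc y hy _
    ((bicomm_closed x).inter (isClosed_eq hσ.cont continuous_id)) h0 key
  exact ⟨h, hS.1, hS.2, h1, h2⟩

/-- idempotents near almost idempotents -/
theorem near_idem {σ : 𝔸 → 𝔸} (hσ : AntiInv σ) (e : 𝔸) (he : e * e = e) :
    ∃ Pf : 𝔸 → 𝔸, Tendsto Pf (𝓝 e) (𝓝 e) ∧ ∀ᶠ x in 𝓝 e, σ x = x →
      (Pf x * Pf x = Pf x ∧ σ (Pf x) = Pf x ∧ ∀ z, z * x = x * z → z * Pf x = Pf x * z) := by
  have t1 : Tendsto (fun x : 𝔸 => ‖x * x - x‖) (𝓝 e) (𝓝 0) := by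
    have : Continuous fun x : 𝔸 => ‖x * x - x‖ := by fun_prop
    have := this.tendsto e
    simpa [he] using this
  have t2 : Tendsto (fun x : 𝔸 => ‖x - e‖ + ‖1 - (2:ℝ) • x‖ * (4 * ‖x * x - x‖)) (𝓝 e) (𝓝 0) := by
    have : Continuous fun x : 𝔸 => ‖x - e‖ + ‖1 - (2:ℝ) • x‖ * (4 * ‖x * x - x‖) := by fun_prop
    have := this.tendsto e
    simpa [he] using this
  have key : ∀ x : 𝔸, ∃ P : 𝔸, ‖P - e‖ ≤ ‖x - e‖ + ‖1 - (2:ℝ) • x‖ * (4 * ‖x * x - x‖) ∧
      (‖x * x - x‖ < 1 / 32 → σ x = x →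
        (P * P = P ∧ σ P = P ∧ ∀ z, z * x = x * z → z * P = P * z)) := by
    intro x
    by_cases hx1 : ‖x * x - x‖ < 1 / 32
    swap
    · exact ⟨e, by rw [sub_self, norm_zero]; positivity, fun h => absurd h hx1⟩
    by_cases hσx : σ x = x
    swap
    · exact ⟨e, by rw [sub_self, norm_zero]; positivity, fun _ h => absurd h hσx⟩
    obtain ⟨h, hcomm, hσh, hn, hfix⟩ := fix_sub hσ (-4) (by norm_num) x (x * x - x) hx1.le
      (by rw [hσ.sub, hσ.mul, hσx])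
      (fun z hz => by rw [mul_sub, ← mul_assoc, hz, mul_assoc, hz, ← mul_assoc, sub_mul])
      (by noncomm_ring)
    have hxh : x * h = h * x := hcomm x rfl
    have hPid : (x + (1 - (2:ℝ) • x) * h) * (x + (1 - (2:ℝ) • x) * h)
        = x + (1 - (2:ℝ) • x) * h := by
      set y := x * x - x with hy
      have hyh : y * h = h * y := (hcomm y (by simp only [hy]; noncomm_ring))
      have h2 : (2:ℝ) • x = x + x := two_smul ℝ x
      have h4 : ((-4:ℝ)) • y = -(y + y + y + y) := by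
        have : (-4:ℝ) • y = -((4:ℝ) • y) := by rw [neg_smul]
        rw [this]
        have : (4:ℝ) • y = y + y + y + y := by
          rw [show (4:ℝ) = 2 + 2 by norm_num, add_smul, two_smul]; abel
        rw [this]
      rw [h4] at hfix
      have key : (x + (1 - (x + x)) * h) * (x + (1 - (x + x)) * h) - (x + (1 - (x + x)) * h)
          = (y + -(y + y + y + y) * h + h * h - -(y + y + y + y) * (h * h)) - h := by
        have c1 : h * x = x * h := hxh.symm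
        have e1 : (x + (1 - (x + x)) * h) * (x + (1 - (x + x)) * h)
            = x * x + x * (1 - (x + x)) * h + (1 - (x + x)) * (h * x)
              + (1 - (x + x)) * (h * (1 - (x + x))) * h := by noncomm_ring
        have e2 : h * (1 - (x + x)) = (1 - (x + x)) * h := by
          rw [mul_sub, mul_add, c1, sub_mul, add_mul, mul_one, one_mul]
        rw [e1, c1, e2]
        simp only [hy]
        noncomm_ring
      rw [h2]
      rw [hfix, sub_self] at key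
      exact sub_eq_zero.mp key
    refine ⟨x + (1 - (2:ℝ) • x) * h, ?_, fun _ _ => ⟨hPid, ?_, ?_⟩⟩
    · calc ‖x + (1 - (2:ℝ) • x) * h - e‖ = ‖(x - e) + (1 - (2:ℝ) • x) * h‖ := by congr 1; abel
        _ ≤ ‖x - e‖ + ‖(1 - (2:ℝ) • x) * h‖ := norm_add_le _ _
        _ ≤ ‖x - e‖ + ‖1 - (2:ℝ) • x‖ * ‖h‖ := by gcongr; exact norm_mul_le _ _
        _ ≤ ‖x - e‖ + ‖1 - (2:ℝ) • x‖ * (4 * ‖x * x - x‖) := by gcongr
    · rw [hσ.add, hσ.mul, hσ.sub, hσ.one, hσ.smul, hσx, hσh, mul_sub, mul_one, mul_smul_comm,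
        ← hxh, sub_mul, one_mul, smul_mul_assoc]
    · intro z hz
      have hzh := hcomm z hz
      rw [mul_add, hz, ← mul_assoc, mul_sub, mul_one, mul_smul_comm, hz, sub_mul, hzh, add_mul,
        sub_mul, sub_mul, one_mul, smul_mul_assoc, smul_mul_assoc, mul_assoc, hzh, smul_mul_assoc]
      congr 1
      congr 1
      rw [mul_assoc]
  choose Pf hP1 hP2 using key
  refine ⟨Pf, ?_, ?_⟩
  · rw [tendsto_iff_norm_sub_tendsto_zero]
    exact squeeze_zero (fun _ => norm_nonneg _) hP1 t2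
  · filter_upwards [t1.eventually (gt_mem_nhds (show (0:ℝ) < 1/32 by norm_num))] with x hx1 hσx
    exact hP2 x hx1 hσx

omit [NormedAlgebra ℝ 𝔸] [CompleteSpace 𝔸] in
/-- a small idempotent vanishes -/
theorem small_idem : ∀ᶠ X in 𝓝 (0:𝔸), X * X = X → X = 0 := by
  have t1 : Tendsto (fun x : 𝔸 => ‖x‖) (𝓝 0) (𝓝 0) := by
    have : Continuous fun x : 𝔸 => ‖x‖ := by fun_prop
    have := this.tendsto 0
    simpa using this
  filter_upwards [t1.eventually (gt_mem_nhds (show (0:ℝ) < 1 by norm_num))] with X hX hXX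
  by_contra hne
  have h1 : ‖X‖ ≤ ‖X‖ * ‖X‖ := by
    calc ‖X‖ = ‖X * X‖ := by rw [hXX]
      _ ≤ _ := norm_mul_le _ _
  have h2 : 0 < ‖X‖ := norm_pos_iff.2 hne
  nlinarith

/-- conjugating a nearby idempotent -/
theorem near_conj {σ : 𝔸 → 𝔸} (hσ : AntiInv σ) (e : 𝔸) (he : e * e = e) (hσe : σ e = e) :
    ∀ᶠ P in 𝓝 e, P * P = P → σ P = P → ∃ g : 𝔸, σ g * g = 1 ∧ g * P = e * g := by
  have t1 : Tendsto (fun x : 𝔸 => ‖(1/4 : ℝ) • ((x - e) * (x - e))‖) (𝓝 e) (𝓝 0) := by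
    have : Continuous fun x : 𝔸 => ‖(1/4 : ℝ) • ((x - e) * (x - e))‖ := by fun_prop
    have := this.tendsto e
    simpa using this
  filter_upwards [t1.eventually (gt_mem_nhds (show (0:ℝ) < 1/32 by norm_num))] with P hP hPP hσP
  obtain ⟨w, hw⟩ : ∃ w : 𝔸, w = (1/4 : ℝ) • ((P - e) * (P - e)) := ⟨_, rfl⟩
  have hw4 : w + w + w + w = (P - e) * (P - e) := by
    rw [hw, ← add_smul, ← add_smul, ← add_smul]; norm_num
  rw [← hw] at hP
  obtain ⟨h, hcomm, hσh, hn, hfix⟩ := fix_sub hσ 0 (by norm_num) w w hP.le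
    (by rw [hw, hσ.smul, hσ.mul, hσ.sub, hσP, hσe])
    (fun z hz => hz) rfl
  simp only [zero_smul, zero_mul, add_zero, sub_zero] at hfix
  have hPw : P * w = w * P := by
    rw [hw, mul_smul_comm, smul_mul_assoc]
    congr 1
    have h1 : P * ((P - e) * (P - e)) = P * P * P - P * P * e - P * e * P + P * (e * e) := by
      noncomm_ring
    have h2 : ((P - e) * (P - e)) * P = P * P * P - P * e * P - e * (P * P) + e * e * P := by
      noncomm_ring
    rw [h1, h2, hPP, he, hPP]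
    noncomm_ring
  have hPh := hcomm P hPw
  -- R = 1 - 2h
  obtain ⟨R, hR⟩ : ∃ R : 𝔸, R = 1 - (h + h) := ⟨_, rfl⟩
  have hRR : R * R = 1 - (P - e) * (P - e) := by
    rw [← hw4, hR]
    have : (1 - (h + h)) * (1 - (h + h)) = 1 - (h + h + h + h) + (h*h + h*h + h*h + h*h) := by
      noncomm_ring
    rw [this]
    have h3 : h = w + h * h := hfix.symm
    have h4 : (h + h + h + h) = (w + w + w + w) + (h*h + h*h + h*h + h*h) := by
      nth_rewrite 1 2 3 4 [h3]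
      abel
    rw [h4]; abel
  have hσR : σ R = R := by rw [hR, hσ.sub, hσ.one, hσ.add, hσh]
  have hPR : P * R = R * P := by rw [hR, mul_sub, mul_add, hPh, sub_mul, add_mul, mul_one, one_mul]
  have hRn : ‖h + h‖ < 1 := by
    calc ‖h + h‖ ≤ ‖h‖ + ‖h‖ := norm_add_le _ _
      _ < 1 := by linarith
  have hRu : IsUnit R := by
    rw [hR]
    exact isUnit_one_sub_of_norm_lt_one hRn
  obtain ⟨u, hu⟩ := hRu
  obtain ⟨Ri, hRi⟩ : ∃ Ri : 𝔸, Ri = ((u⁻¹ : 𝔸ˣ) : 𝔸) := ⟨_, rfl⟩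
  have hRRi : R * Ri = 1 := by rw [hRi, ← hu]; simp
  have hRiR : Ri * R = 1 := by rw [hRi, ← hu]; simp
  have hσRi : σ Ri = Ri := by
    have h1 : σ (R * Ri) = 1 := by rw [hRRi, hσ.one]
    rw [hσ.mul, hσR] at h1
    calc σ Ri = σ Ri * (R * Ri) := by rw [hRRi, mul_one]
      _ = (σ Ri * R) * Ri := by rw [mul_assoc]
      _ = Ri := by rw [h1, one_mul]
  have hPRi : P * Ri = Ri * P := by
    calc P * Ri = (Ri * R) * (P * Ri) := by rw [hRiR, one_mul]
      _ = Ri * ((R * P) * Ri) := by noncomm_ring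
      _ = Ri * (P * (R * Ri)) := by rw [← hPR]; noncomm_ring
      _ = Ri * P := by rw [hRRi, mul_one]
  obtain ⟨g0, hg0⟩ : ∃ g0 : 𝔸, g0 = e * P + (1 - e) * (1 - P) := ⟨_, rfl⟩
  have hσg0 : σ g0 = P * e + (1 - P) * (1 - e) := by
    rw [hg0, hσ.add, hσ.mul, hσ.mul, hσ.sub, hσ.sub, hσ.one, hσP, hσe]
  have hgg : σ g0 * g0 = 1 - (P - e) * (P - e) := by
    rw [hσg0, hg0]
    have h1 : (P * e + (1 - P) * (1 - e)) * (e * P + (1 - e) * (1 - P))
        = P * (e * e) * P + P * (e - e * e) * (1 - P) + (1 - P) * (e - e * e) * P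
          + (1 - P) * (1 - e - e + e * e) * (1 - P) := by noncomm_ring
    rw [h1, he]
    have h2 : P * e * P + P * (e - e) * (1 - P) + (1 - P) * (e - e) * P
          + (1 - P) * (1 - e - e + e) * (1 - P)
        = P * e * P + (1 - P - P + P * P) - e + e * P + P * e - P * e * P := by noncomm_ring
    have h3 : 1 - (P - e) * (P - e) = 1 - P * P + P * e + e * P - e * e := by noncomm_ring
    rw [h2, h3, hPP, he]
    noncomm_ring
  have hg0P : g0 * P = e * g0 := by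
    rw [hg0]
    have h1 : (e * P + (1 - e) * (1 - P)) * P = e * (P * P) + (1 - e) * (P - P * P) := by
      noncomm_ring
    have h2 : e * (e * P + (1 - e) * (1 - P)) = e * e * P + (e - e * e) * (1 - P) := by
      noncomm_ring
    rw [h1, h2, hPP, he]; simp
  refine ⟨g0 * Ri, ?_, ?_⟩
  · rw [hσ.mul, hσRi]
    calc Ri * σ g0 * (g0 * Ri) = Ri * (σ g0 * g0) * Ri := by noncomm_ring
      _ = Ri * (R * R) * Ri := by rw [hgg, hRR]
      _ = (Ri * R) * (R * Ri) := by noncomm_ring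
      _ = 1 := by rw [hRRi, hRiR, one_mul]
  · rw [mul_assoc, ← hPRi, ← mul_assoc, hg0P, mul_assoc]

end

section
open Matrix
variable {n : Type} [Fintype n] [DecidableEq n]

theorem mat_near_idem {σ : Matrix n n ℝ → Matrix n n ℝ} (hσ : AntiInv σ) (e : Matrix n n ℝ)
    (he : e * e = e) :
    ∃ Pf : Matrix n n ℝ → Matrix n n ℝ, Tendsto Pf (𝓝 e) (𝓝 e) ∧ ∀ᶠ x in 𝓝 e, σ x = x →
      (Pf x * Pf x = Pf x ∧ σ (Pf x) = Pf x ∧ ∀ z, z * x = x * z → z * Pf x = Pf x * z) := by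
  let _ : NormedRing (Matrix n n ℝ) := Matrix.linftyOpNormedRing
  let _ : NormedAlgebra ℝ (Matrix n n ℝ) := Matrix.linftyOpNormedAlgebra
  have _ : CompleteSpace (Matrix n n ℝ) := FiniteDimensional.complete ℝ _
  exact near_idem (𝔸 := Matrix n n ℝ) ⟨hσ.cont, hσ.add, hσ.sub, hσ.smul, hσ.mul, hσ.one, hσ.inv⟩
    e he

theorem mat_small_idem : ∀ᶠ X in 𝓝 (0 : Matrix n n ℝ), X * X = X → X = 0 := by
  let _ : NormedRing (Matrix n n ℝ) := Matrix.linftyOpNormedRing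
  exact small_idem (𝔸 := Matrix n n ℝ)

theorem mat_near_conj {σ : Matrix n n ℝ → Matrix n n ℝ} (hσ : AntiInv σ) (e : Matrix n n ℝ)
    (he : e * e = e) (hσe : σ e = e) :
    ∀ᶠ P in 𝓝 e, P * P = P → σ P = P → ∃ g : Matrix n n ℝ, σ g * g = 1 ∧ g * P = e * g := by
  let _ : NormedRing (Matrix n n ℝ) := Matrix.linftyOpNormedRing
  let _ : NormedAlgebra ℝ (Matrix n n ℝ) := Matrix.linftyOpNormedAlgebra
  have _ : CompleteSpace (Matrix n n ℝ) := FiniteDimensional.complete ℝ _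
  exact near_conj (𝔸 := Matrix n n ℝ) ⟨hσ.cont, hσ.add, hσ.sub, hσ.smul, hσ.mul, hσ.one, hσ.inv⟩
    e he hσe

end

section Density
open Module
variable {G : Type*} [Group G] {V : Type*} [AddCommGroup V] [Module ℝ V]

/-- extend the representation by a trivial line -/
def ext1 (π : G →* Module.End ℝ V) : G →* Module.End ℝ (V × ℝ) where
  toFun g := LinearMap.prodMap (π g) LinearMap.id
  map_one' := by
    ext <;> simp
  map_mul' a b := by
    ext <;> simp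

theorem ext1_apply (π : G →* Module.End ℝ V) (g : G) (m : V × ℝ) :
    ext1 π g m = (π g m.1, m.2) := rfl

/-- the algebra generated by the extended representation -/
def alg (π : G →* Module.End ℝ V) : Subalgebra ℝ (Module.End ℝ (V × ℝ)) :=
  Algebra.adjoin ℝ (Set.range (ext1 π))

theorem alg_mem_span (π : G →* Module.End ℝ V) (r : Module.End ℝ (V × ℝ)) (hr : r ∈ alg π) :
    r ∈ Submodule.span ℝ (Set.range (ext1 π)) := by
  have h1 : (alg π).toSubmodule = Submodule.span ℝ (Set.range (ext1 π)) := by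
    rw [alg, Algebra.adjoin_eq_span]
    congr 1
    have : Set.range (ext1 π) = ((MonoidHom.mrange (ext1 π) : Submonoid _) : Set _) := by
      ext; simp
    rw [this, Submonoid.closure_eq]
  rw [← h1]
  exact hr

theorem smul_def' (π : G →* Module.End ℝ V) (r : alg π) (m : V × ℝ) :
    r • m = (r : Module.End ℝ (V × ℝ)) m := rfl

/-- generators as elements of the algebra -/
def gen (π : G →* Module.End ℝ V) (g : G) : alg π :=
  ⟨ext1 π g, Algebra.subset_adjoin ⟨g, rfl⟩⟩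

theorem gen_smul (π : G →* Module.End ℝ V) (g : G) (m : V × ℝ) :
    gen π g • m = (π g m.1, m.2) := rfl

/-- invariant real subspaces are submodules -/
theorem inv_sub (π : G →* Module.End ℝ V) (N : Submodule ℝ (V × ℝ))
    (hN : ∀ g, ∀ m ∈ N, ext1 π g m ∈ N) (r : alg π) (m : V × ℝ) (hm : m ∈ N) : r • m ∈ N := by
  have h1 := alg_mem_span π r.1 r.2
  rw [smul_def']
  generalize (r : Module.End ℝ (V × ℝ)) = T at h1
  induction h1 using Submodule.span_induction with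
  | mem x h =>
    obtain ⟨g, rfl⟩ := h
    exact hN g m hm
  | zero => simp
  | add x y _ _ hx hy => exact N.add_mem hx hy
  | smul c x _ hx => exact N.smul_mem c hx

def mkSub (π : G →* Module.End ℝ V) (N : Submodule ℝ (V × ℝ))
    (hN : ∀ g, ∀ m ∈ N, ext1 π g m ∈ N) : Submodule (alg π) (V × ℝ) where
  carrier := N
  add_mem' := N.add_mem
  zero_mem' := N.zero_mem
  smul_mem' := fun r m hm => inv_sub π N hN r m hm

theorem smul_mem_of (π : G →* Module.End ℝ V) (N : Submodule (alg π) (V × ℝ)) (c : ℝ) (m : V × ℝ)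
    (hm : m ∈ N) : c • m ∈ N := by
  have : c • m = (algebraMap ℝ (alg π) c) • m := by
    rw [smul_def']; simp
  rw [this]
  exact N.smul_mem _ hm

variable (π : G →* Module.End ℝ V)
  (hirr : ∀ W : Submodule ℝ V, (∀ g, ∀ w ∈ W, π g w ∈ W) → W = ⊥ ∨ W = ⊤)
  (hfix : ∀ v, (∀ g, π g v = v) → v = 0)

include hirr hfix in
theorem classify (N : Submodule (alg π) (V × ℝ)) :
    ((∀ v : V, (v, (0:ℝ)) ∈ N) ∨ (∀ m ∈ N, m.1 = 0)) := by
  set W : Submodule ℝ V :=
    { carrier := {v | (v, (0:ℝ)) ∈ N}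
      add_mem' := by
        intro a b ha hb
        have := N.add_mem ha hb
        simpa using this
      zero_mem' := N.zero_mem
      smul_mem' := by
        intro c a ha
        have := smul_mem_of π N c _ ha
        simpa using this } with hW
  have hWinv : ∀ g, ∀ w ∈ W, π g w ∈ W := by
    intro g w hw
    exact N.smul_mem (gen π g) hw
  rcases hirr W hWinv with h | h
  · right
    intro m hm
    apply hfix
    intro g
    have h1 : gen π g • m + (-1 : ℝ) • m ∈ N :=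
      N.add_mem (N.smul_mem _ hm) (smul_mem_of π N (-1) m hm)
    have h2 : gen π g • m + (-1 : ℝ) • m = (π g m.1 - m.1, 0) := by
      rw [gen_smul]; ext <;> simp [sub_eq_add_neg]
    rw [h2] at h1
    have h3 : π g m.1 - m.1 ∈ W := h1
    rw [h, Submodule.mem_bot] at h3
    exact sub_eq_zero.1 h3
  · left
    intro v
    have : v ∈ W := by rw [h]; trivial
    exact this

/-- second coordinate: everything or nothing -/
theorem classify2 (N : Submodule (alg π) (V × ℝ)) :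
    (∀ m ∈ N, m.2 = 0) ∨ (∀ t : ℝ, ∃ v : V, (v, t) ∈ N) := by
  by_cases h : ∀ m ∈ N, m.2 = 0
  · exact Or.inl h
  · right
    push Not at h
    obtain ⟨m, hm, hm2⟩ := h
    intro t
    refine ⟨(t / m.2) • m.1, ?_⟩
    have := smul_mem_of π N (t / m.2) _ hm
    have h2 : (t / m.2) • m = ((t / m.2) • m.1, t) := by
      ext
      · rfl
      · simp [hm2]
    rwa [h2] at this

def N1 : Submodule (alg π) (V × ℝ) :=
  mkSub π (LinearMap.ker (LinearMap.snd ℝ V ℝ)) (by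
    intro g m hm
    rw [ext1_apply]
    simpa using hm)

def N2 : Submodule (alg π) (V × ℝ) :=
  mkSub π (LinearMap.ker (LinearMap.fst ℝ V ℝ)) (by
    intro g m hm
    rw [ext1_apply]
    have : m.1 = 0 := by simpa using hm
    simp [this])

theorem mem_N1 (m : V × ℝ) : m ∈ N1 π ↔ m.2 = 0 := by
  change m ∈ LinearMap.ker (LinearMap.snd ℝ V ℝ) ↔ _
  simp

theorem mem_N2 (m : V × ℝ) : m ∈ N2 π ↔ m.1 = 0 := by
  change m ∈ LinearMap.ker (LinearMap.fst ℝ V ℝ) ↔ _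
  simp

theorem compl12 : IsCompl (N1 π) (N2 π) := by
  rw [isCompl_iff, Submodule.disjoint_def, codisjoint_iff]
  refine ⟨?_, ?_⟩
  · intro x h1 h2
    rw [mem_N1] at h1
    rw [mem_N2] at h2
    exact Prod.ext h2 h1
  · rw [eq_top_iff]
    intro x _
    rw [Submodule.mem_sup]
    exact ⟨(x.1, 0), by rw [mem_N1], (0, x.2), by rw [mem_N2], by ext <;> simp⟩

include hirr hfix in
theorem four (N : Submodule (alg π) (V × ℝ)) : N = ⊥ ∨ N = ⊤ ∨ N = N1 π ∨ N = N2 π := by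
  rcases classify π hirr hfix N with h | h <;> rcases classify2 π N with h' | h'
  · right; right; left
    ext m
    rw [mem_N1]
    refine ⟨h' m, fun hm => ?_⟩
    have : m = (m.1, 0) := Prod.ext rfl hm
    rw [this]; exact h _
  · right; left
    rw [eq_top_iff]
    intro m _
    obtain ⟨v, hv⟩ := h' m.2
    have h2 := N.add_mem (h (m.1 - v)) hv
    simpa using h2
  · left
    rw [eq_bot_iff]
    intro m hm
    exact Prod.ext (h m hm) (h' m hm)
  · right; right; right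
    ext m
    rw [mem_N2]
    refine ⟨h m, fun hm => ?_⟩
    obtain ⟨v, hv⟩ := h' m.2
    have hv0 := h _ hv
    simp only at hv0
    have : m = (v, m.2) := Prod.ext (hm.trans hv0.symm) rfl
    rw [this]; exact hv

include hirr hfix in
theorem semis : IsSemisimpleModule (alg π) (V × ℝ) := by
  refine { exists_isCompl := fun N => ?_ }
  rcases four π hirr hfix N with rfl | rfl | rfl | rfl
  · exact ⟨⊤, isCompl_bot_top⟩
  · exact ⟨⊥, isCompl_top_bot⟩
  · exact ⟨N2 π, compl12 π⟩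
  · exact ⟨N1 π, (compl12 π).symm⟩

include hirr hfix in
/-- there is an element of the group algebra acting as the identity on `V` and as zero on the
trivial representation -/
theorem density [FiniteDimensional ℝ V] [Nontrivial V] :
    ∃ c : G →₀ ℝ, (c.sum fun _ a => a) = 0 ∧ (c.sum fun g a => a • π g) = 1 := by
  have := semis π hirr hfix
  -- the projection commutes with all endomorphisms
  have hcomm : ∀ φ : Module.End (alg π) (V × ℝ), ∀ m : V × ℝ,
      (((φ m).1, (0:ℝ)) : V × ℝ) = φ (m.1, 0) := by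
    intro φ m
    have h1 : ∀ v : V, (φ (v, 0)).2 = 0 := by
      set b : V →ₗ[ℝ] ℝ :=
        { toFun := fun v => (φ (v, 0)).2
          map_add' := by
            intro x y
            have : ((x + y, (0:ℝ)) : V × ℝ) = (x, 0) + (y, 0) := by ext <;> simp
            rw [this, map_add]; rfl
          map_smul' := by
            intro c x
            have : ((c • x, (0:ℝ)) : V × ℝ) = (algebraMap ℝ (alg π) c) • (x, (0:ℝ)) := by
              rw [smul_def']; ext <;> simp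
            rw [this, map_smul, smul_def']
            simp } with hb
      have hbinv : ∀ g v, b (π g v) = b v := by
        intro g v
        have : ((π g v, (0:ℝ)) : V × ℝ) = gen π g • (v, (0:ℝ)) := rfl
        change (φ (π g v, 0)).2 = (φ (v, 0)).2
        rw [this, map_smul, gen_smul]
      rcases hirr (LinearMap.ker b) (by
        intro g w hw
        rw [LinearMap.mem_ker] at hw ⊢
        rw [hbinv, hw]) with h | h
      · -- b injective: then every vector is fixed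
        exfalso
        obtain ⟨v, hv⟩ := exists_ne (0 : V)
        apply hv
        apply hfix
        intro g
        exact LinearMap.ker_eq_bot.1 h (hbinv g v)
      · intro v
        have : v ∈ LinearMap.ker b := by rw [h]; trivial
        exact this
    have h2 : ∀ t : ℝ, (φ (0, t)).1 = 0 := by
      intro t
      apply hfix
      intro g
      have h3 : gen π g • ((0, t) : V × ℝ) = (0, t) := by rw [gen_smul]; simp
      have h4 : φ (gen π g • ((0, t) : V × ℝ)) = gen π g • φ (0, t) := map_smul _ _ _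
      rw [h3, gen_smul] at h4
      exact (congrArg Prod.fst h4).symm
    have h5 : m = (m.1, 0) + (0, m.2) := by ext <;> simp
    have h6 : φ m = φ (m.1, 0) + φ (0, m.2) := by
      conv_lhs => rw [h5]
      rw [map_add]
    rw [h6]
    ext
    · simp [h2]
    · simp [h1]
  set f : Module.End (Module.End (alg π) (V × ℝ)) (V × ℝ) :=
    { toFun := fun m => (m.1, 0)
      map_add' := by
        intro x y
        ext <;> simp
      map_smul' := by
        intro φ m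
        exact hcomm φ m } with hf
  obtain ⟨s, hs⟩ := Module.Finite.fg_top (R := ℝ) (M := V × ℝ)
  obtain ⟨r, hr⟩ := jacobson_density (R := alg π) (M := V × ℝ) f s
  have hrall : ∀ m : V × ℝ, r • m = (m.1, 0) := by
    intro m
    have hm : m ∈ Submodule.span ℝ (s : Set (V × ℝ)) := by rw [hs]; trivial
    induction hm using Submodule.span_induction with
    | mem x hx => exact (hr x hx).symm
    | zero => simp; rfl
    | add x y _ _ hx hy => rw [smul_add, hx, hy]; ext <;> simp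
    | smul c x _ hx =>
      have : r • (c • x) = c • (r • x) := by
        rw [smul_def', smul_def', map_smul]
      rw [this, hx]; ext <;> simp
  have hspan := alg_mem_span π r.1 r.2
  rw [Finsupp.mem_span_range_iff_exists_finsupp] at hspan
  obtain ⟨c, hc⟩ := hspan
  refine ⟨c, ?_, ?_⟩
  · have h1 := hrall (0, 1)
    rw [smul_def', ← hc] at h1
    have h2 := congrArg Prod.snd h1
    simpa [Finsupp.sum, LinearMap.sum_apply, ext1_apply, Prod.snd_sum] using h2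
  · ext v
    have h1 := hrall (v, 0)
    rw [smul_def', ← hc] at h1
    have h2 := congrArg Prod.fst h1
    simpa [Finsupp.sum, LinearMap.sum_apply, ext1_apply, Prod.fst_sum] using h2

end Density

theorem mem_Gam1 {p q : ℕ} (Γ : Subgroup (SO (J p) × SO (J q))) (g : SO (J p)) :
    g ∈ Gam1 Γ ↔ (g, (1 : SO (J q))) ∈ Γ := Iff.rfl

theorem mem_Gam2 {p q : ℕ} (Γ : Subgroup (SO (J p) × SO (J q))) (g : SO (J q)) :
    g ∈ Gam2 Γ ↔ ((1 : SO (J p)), g) ∈ Γ := Iff.rfl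

theorem coco_of_relIndex {G : Type*} [Group G] [TopologicalSpace G] [IsTopologicalGroup G]
    {Λ Γ : Subgroup G} (h : Λ.relIndex Γ ≠ 0) (hΓ : Coco Γ) : Coco Λ := by
  obtain ⟨K, hK, hKΓ⟩ := hΓ
  have hfi : (Λ.subgroupOf Γ).FiniteIndex := ⟨h⟩
  have : Finite (Γ ⧸ Λ.subgroupOf Γ) := Subgroup.finite_quotient_of_finiteIndex
  set T : Set G := Set.range (fun c : Γ ⧸ Λ.subgroupOf Γ => ((Quotient.out c : Γ) : G)) with hT
  have hTf : T.Finite := Set.finite_range _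
  refine ⟨K * T, hK.mul hTf.isCompact, fun g => ?_⟩
  obtain ⟨k, hk, γ, hγ, rfl⟩ := hKΓ g
  set c : Γ ⧸ Λ.subgroupOf Γ := QuotientGroup.mk ⟨γ, hγ⟩ with hc
  have h1 : (Quotient.out c)⁻¹ * ⟨γ, hγ⟩ ∈ Λ.subgroupOf Γ := by
    rw [← QuotientGroup.eq]
    exact Quotient.out_eq c
  refine ⟨k * ((Quotient.out c : Γ) : G), Set.mul_mem_mul hk ⟨c, rfl⟩,
    ((Quotient.out c : Γ) : G)⁻¹ * γ, ?_, by group⟩
  exact h1

theorem coco_fst {p q : ℕ} {Λ₁ : Subgroup (SO (J p))} {Λ₂ : Subgroup (SO (J q))}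
    (h : Coco (Λ₁.prod Λ₂)) : Coco Λ₁ := by
  obtain ⟨K, hK, hKΓ⟩ := h
  refine ⟨Prod.fst '' K, hK.image continuous_fst, fun g => ?_⟩
  obtain ⟨k, hk, γ, hγ, he⟩ := hKΓ (g, 1)
  exact ⟨k.1, ⟨k, hk, rfl⟩, γ.1, hγ.1, congrArg Prod.fst he⟩

theorem coco_snd {p q : ℕ} {Λ₁ : Subgroup (SO (J p))} {Λ₂ : Subgroup (SO (J q))}
    (h : Coco (Λ₁.prod Λ₂)) : Coco Λ₂ := by
  obtain ⟨K, hK, hKΓ⟩ := h
  refine ⟨Prod.snd '' K, hK.image continuous_snd, fun g => ?_⟩
  obtain ⟨k, hk, γ, hγ, he⟩ := hKΓ (1, g)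
  exact ⟨k.2, ⟨k, hk, rfl⟩, γ.2, hγ.2, congrArg Prod.snd he⟩

theorem discrete1 {p q : ℕ} (Γ : Subgroup (SO (J p) × SO (J q))) [DiscreteTopology Γ] :
    DiscreteTopology (Gam1 Γ) := by
  refine DiscreteTopology.of_continuous_injective
    (f := fun g : Gam1 Γ => (⟨(g.1, 1), g.2⟩ : Γ)) (by fun_prop) ?_
  intro a b hab
  exact Subtype.ext (congrArg (fun x : Γ => x.1.1) hab)

theorem discrete2 {p q : ℕ} (Γ : Subgroup (SO (J p) × SO (J q))) [DiscreteTopology Γ] :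
    DiscreteTopology (Gam2 Γ) := by
  refine DiscreteTopology.of_continuous_injective
    (f := fun g : Gam2 Γ => (⟨(1, g.1), g.2⟩ : Γ)) (by fun_prop) ?_
  intro a b hab
  exact Subtype.ext (congrArg (fun x : Γ => x.1.2) hab)

/-- the tautological representation of a subgroup -/
noncomputable def rep {p : ℕ} (Λ : Subgroup (SO (J p))) :
    Λ →* Module.End ℝ (Fin (p + 1) → ℝ) where
  toFun g := Matrix.toLin' g.1.1.1
  map_one' := by
    change Matrix.toLin' (1 : Matrix _ _ ℝ) = 1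
    rw [Matrix.toLin'_one]; rfl
  map_mul' a b := by
    change Matrix.toLin' (a.1.1.1 * b.1.1.1) = _
    rw [Matrix.toLin'_mul]; rfl

theorem rep_apply {p : ℕ} (Λ : Subgroup (SO (J p))) (g : Λ) (v : Fin (p + 1) → ℝ) :
    rep Λ g v = g.1.1.1 *ᵥ v := by
  change Matrix.toLin' g.1.1.1 v = _
  rw [Matrix.toLin'_apply]

/-- the group algebra element -/
theorem exists_coeff {p : ℕ} (hp : 2 ≤ p) (Λ : Subgroup (SO (J p))) (hΛ : Coco Λ)
    [DiscreteTopology Λ] :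
    ∃ c : Λ →₀ ℝ, (c.sum fun _ a => a) = 0 ∧ (c.sum fun g a => a • g.1.1.1) = 1 := by
  obtain ⟨c, h1, h2⟩ := density (rep Λ)
    (by
      intro W hW
      refine irreducible hp Λ hΛ W fun γ hγ w hw => ?_
      have := hW ⟨γ, hγ⟩ w hw
      rwa [rep_apply] at this)
    (by
      intro v hv
      by_contra hv0
      obtain ⟨γ, hγ, hlt⟩ := gamma_unbounded (by omega) Λ hΛ v hv0 ‖v‖
      have := hv ⟨γ, hγ⟩
      rw [rep_apply] at this
      simp only at this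
      rw [this] at hlt
      exact lt_irrefl _ hlt)
  refine ⟨c, h1, ?_⟩
  apply Matrix.toLin'.injective
  rw [Matrix.toLin'_one, ← Module.End.one_eq_id, ← h2, Finsupp.sum, Finsupp.sum, map_sum]
  refine Finset.sum_congr rfl fun g _ => ?_
  rw [map_smul]; rfl

/-- the adjoint with respect to the form `J2` -/
def sig (p q : ℕ) (X : Matrix (Fin (p + 1) ⊕ Fin (q + 1)) (Fin (p + 1) ⊕ Fin (q + 1)) ℝ) :
    Matrix (Fin (p + 1) ⊕ Fin (q + 1)) (Fin (p + 1) ⊕ Fin (q + 1)) ℝ := J2 p q * Xᵀ * J2 p q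

theorem J2_mul_J2 (p q : ℕ) : J2 p q * J2 p q = 1 := by
  rw [J2, fromBlocks_multiply]
  simp [J_mul_J]

theorem J2_transpose (p q : ℕ) : (J2 p q)ᵀ = J2 p q := by
  rw [J2, fromBlocks_transpose, J_transpose, J_transpose]
  simp

theorem antiInv (p q : ℕ) : AntiInv (sig p q) where
  cont := by unfold sig; fun_prop
  add a b := by simp [sig, mul_add, add_mul]
  sub a b := by simp [sig, mul_sub, sub_mul]
  smul r a := by simp [sig]
  mul a b := by
    simp only [sig, transpose_mul]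
    calc J2 p q * (bᵀ * aᵀ) * J2 p q = J2 p q * bᵀ * (1 : Matrix _ _ ℝ) * aᵀ * J2 p q := by
          simp only [Matrix.mul_assoc, Matrix.mul_one]
      _ = _ := by rw [← J2_mul_J2 p q]; simp only [Matrix.mul_assoc]
  one := by simp [sig, J2_mul_J2]
  inv a := by
    simp only [sig, transpose_mul, J2_transpose, transpose_transpose]
    calc J2 p q * (J2 p q * (a * J2 p q)) * J2 p q
        = (J2 p q * J2 p q) * a * (J2 p q * J2 p q) := by simp only [Matrix.mul_assoc]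
      _ = a := by rw [J2_mul_J2, one_mul, mul_one]

theorem sig_mul_self {p q : ℕ} (g : SO (J2 p q)) : sig p q g.1.1 * g.1.1 = 1 := by
  have h := prop_of_mem g
  calc sig p q g.1.1 * g.1.1 = J2 p q * (g.1.1ᵀ * J2 p q * g.1.1) := by
        simp only [sig, Matrix.mul_assoc]
    _ = 1 := by
      have h' : g.1.1ᵀ * J2 p q * g.1.1 = J2 p q := h
      rw [h', J2_mul_J2]

theorem coe_one' {n : Type} [Fintype n] [DecidableEq n] {S : Matrix n n ℝ} :
    ((1 : SO S)).1.1 = (1 : Matrix n n ℝ) := rfl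

theorem mul_inv_coe {n : Type} [Fintype n] [DecidableEq n] {S : Matrix n n ℝ} (g : SO S) :
    g.1.1 * (g⁻¹).1.1 = 1 := by
  rw [← coe_mul', mul_inv_cancel]; rfl

theorem inv_mul_coe {n : Type} [Fintype n] [DecidableEq n] {S : Matrix n n ℝ} (g : SO S) :
    (g⁻¹).1.1 * g.1.1 = 1 := by
  rw [← coe_mul', inv_mul_cancel]; rfl

theorem sig_coe {p q : ℕ} (g : SO (J2 p q)) : sig p q g.1.1 = (g⁻¹).1.1 := by
  calc sig p q g.1.1 = sig p q g.1.1 * (g.1.1 * (g⁻¹).1.1) := by rw [mul_inv_coe, mul_one]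
    _ = (g⁻¹).1.1 := by rw [← mul_assoc, sig_mul_self, one_mul]

/-- the projection on the first block -/
def Ep (p q : ℕ) : Matrix (Fin (p + 1) ⊕ Fin (q + 1)) (Fin (p + 1) ⊕ Fin (q + 1)) ℝ :=
  fromBlocks 1 0 0 0

theorem Ep_idem (p q : ℕ) : Ep p q * Ep p q = Ep p q := by
  simp [Ep, fromBlocks_multiply]

theorem one_sub_Ep (p q : ℕ) : 1 - Ep p q = fromBlocks 0 0 0 1 := by
  rw [Ep, ← fromBlocks_one, sub_eq_add_neg, fromBlocks_neg, fromBlocks_add]
  simp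

theorem sig_Ep (p q : ℕ) : sig p q (Ep p q) = Ep p q := by
  simp [sig, Ep, J2, fromBlocks_transpose, fromBlocks_multiply, J_mul_J]

/-- symmetrised group algebra element -/
noncomputable def sym {p q : ℕ} {ι Γ' : Type*} (c : ι →₀ ℝ)
    (f : ι → Γ') (M : Γ' → SO (J2 p q)) :
    Matrix (Fin (p + 1) ⊕ Fin (q + 1)) (Fin (p + 1) ⊕ Fin (q + 1)) ℝ :=
  ∑ i ∈ c.support, (c i / 2) • ((M (f i)).1.1 + ((M (f i))⁻¹).1.1)

theorem sig_sym {p q : ℕ} {ι Γ' : Type*} (c : ι →₀ ℝ) (f : ι → Γ') (M : Γ' → SO (J2 p q)) :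
    sig p q (sym c f M) = sym c f M := by
  have h1 : ∀ (s : Finset ι) (F : ι → Matrix (Fin (p + 1) ⊕ Fin (q + 1)) (Fin (p + 1) ⊕ Fin (q + 1)) ℝ),
      sig p q (∑ i ∈ s, F i) = ∑ i ∈ s, sig p q (F i) := fun s F =>
    map_sum (AddMonoidHom.mk' (sig p q) (antiInv p q).add) F s
  rw [sym, h1]
  refine Finset.sum_congr rfl fun i _ => ?_
  rw [(antiInv p q).smul, (antiInv p q).add, sig_coe, sig_coe, inv_inv,
    add_comm ((M (f i))⁻¹).1.1]

theorem comm_sym {p q : ℕ} {ι Γ' : Type*} (c : ι →₀ ℝ) (f : ι → Γ') (M : Γ' → SO (J2 p q))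
    (z : Matrix (Fin (p + 1) ⊕ Fin (q + 1)) (Fin (p + 1) ⊕ Fin (q + 1)) ℝ)
    (hz : ∀ i, z * (M (f i)).1.1 = (M (f i)).1.1 * z)
    (hz' : ∀ i, z * ((M (f i))⁻¹).1.1 = ((M (f i))⁻¹).1.1 * z) :
    z * sym c f M = sym c f M * z := by
  rw [sym, Finset.mul_sum, Finset.sum_mul]
  refine Finset.sum_congr rfl fun i _ => ?_
  rw [mul_smul_comm, smul_mul_assoc, mul_add, add_mul, hz, hz']

theorem tendsto_sym {p q : ℕ} {ι Γ' X : Type*} (c : ι →₀ ℝ) (f : ι → Γ')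
    (M : X → Γ' → SO (J2 p q)) (M₀ : Γ' → SO (J2 p q)) (l : Filter X)
    (h : ∀ γ, Tendsto (fun x => (M x γ).1.1) l (𝓝 (M₀ γ).1.1)) :
    Tendsto (fun x => sym c f (M x)) l (𝓝 (sym c f M₀)) := by
  unfold sym
  refine tendsto_finsetSum _ fun i _ => ?_
  refine Tendsto.const_smul ?_ _
  refine Tendsto.add (h _) ?_
  have h1 : ∀ g : SO (J2 p q), (g⁻¹).1.1 = sig p q g.1.1 := fun g => (sig_coe g).symm
  simp only [h1]
  exact ((antiInv p q).cont.tendsto _).comp (h _)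

theorem iota_fst_coe {p q : ℕ} (g : SO (J p)) :
    (iota p q (g, 1)).1.1 = fromBlocks g.1.1 0 0 1 := rfl

theorem iota_snd_coe {p q : ℕ} (g : SO (J q)) :
    (iota p q (1, g)).1.1 = fromBlocks 1 0 0 g.1.1 := rfl

theorem iota_coe {p q : ℕ} (g : SO (J p) × SO (J q)) :
    (iota p q g).1.1 = fromBlocks g.1.1.1 0 0 g.2.1.1 := rfl

theorem iota_comm_Ep {p q : ℕ} (g : SO (J p) × SO (J q)) :
    (iota p q g).1.1 * Ep p q = Ep p q * (iota p q g).1.1 := by
  rw [iota_coe, Ep, fromBlocks_multiply, fromBlocks_multiply]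
  simp

theorem sum_fromBlocks1 {p q : ℕ} {ι : Type*} (s : Finset ι) (c : ι → ℝ)
    (A : ι → Matrix (Fin (p + 1)) (Fin (p + 1)) ℝ) (B : ι → Matrix (Fin (q + 1)) (Fin (q + 1)) ℝ) :
    ∑ i ∈ s, c i • fromBlocks (A i) 0 0 (B i)
      = fromBlocks (∑ i ∈ s, c i • A i) 0 0 (∑ i ∈ s, c i • B i) := by
  classical
  induction s using Finset.induction_on with
  | empty => simp
  | insert a s ha ih =>
    rw [Finset.sum_insert ha, Finset.sum_insert ha, Finset.sum_insert ha, ih, fromBlocks_smul,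
      fromBlocks_add]
    simp

/-- for the inclusion the symmetrised element is the projection -/
theorem sym_iota1 {p q : ℕ} (Γ : Subgroup (SO (J p) × SO (J q))) (c : Gam1 Γ →₀ ℝ)
    (h1 : (c.sum fun _ a => a) = 0) (h2 : (c.sum fun g a => a • g.1.1.1) = 1) :
    sym (p := p) (q := q) c (fun g : Gam1 Γ => (⟨(g.1, 1), g.2⟩ : Γ)) (fun γ => iota p q γ.1)
      = Ep p q := by
  have h3 : (∑ i ∈ c.support, c i • (iota p q (i.1, 1)).1.1) = Ep p q := by
    simp only [iota_fst_coe]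
    rw [sum_fromBlocks1, ← Finset.sum_smul, Ep]
    rw [Finsupp.sum] at h1 h2
    rw [h1, h2, zero_smul]
  have h4 : (∑ i ∈ c.support, c i • ((iota p q (i.1, 1))⁻¹).1.1) = Ep p q := by
    have h5 := congrArg (sig p q) h3
    have h6 : ∀ (s : Finset (Gam1 Γ)) (F : (Gam1 Γ) → Matrix (Fin (p + 1) ⊕ Fin (q + 1)) (Fin (p + 1) ⊕ Fin (q + 1)) ℝ),
      sig p q (∑ i ∈ s, F i) = ∑ i ∈ s, sig p q (F i) := fun s F =>
      map_sum (AddMonoidHom.mk' (sig p q) (antiInv p q).add) F s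
    rw [sig_Ep, h6] at h5
    simp only [(antiInv p q).smul, sig_coe] at h5
    exact h5
  have h7 : sym (p := p) (q := q) c (fun g : Gam1 Γ => (⟨(g.1, 1), g.2⟩ : Γ)) (fun γ => iota p q γ.1)
      = (1 / 2 : ℝ) • (∑ i ∈ c.support, c i • (iota p q (i.1, 1)).1.1)
        + (1 / 2 : ℝ) • (∑ i ∈ c.support, c i • ((iota p q (i.1, 1))⁻¹).1.1) := by
    rw [sym, Finset.smul_sum, Finset.smul_sum, ← Finset.sum_add_distrib]
    refine Finset.sum_congr rfl fun i _ => ?_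
    rw [smul_smul, smul_smul, smul_add]
    congr 1 <;> congr 1 <;> ring
  rw [h7, h3, h4, ← add_smul]
  norm_num

theorem sym_iota2 {p q : ℕ} (Γ : Subgroup (SO (J p) × SO (J q))) (c : Gam2 Γ →₀ ℝ)
    (h1 : (c.sum fun _ a => a) = 0) (h2 : (c.sum fun g a => a • g.1.1.1) = 1) :
    sym (p := p) (q := q) c (fun g : Gam2 Γ => (⟨(1, g.1), g.2⟩ : Γ)) (fun γ => iota p q γ.1)
      = 1 - Ep p q := by
  have h3 : (∑ i ∈ c.support, c i • (iota p q (1, i.1)).1.1) = 1 - Ep p q := by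
    simp only [iota_snd_coe]
    rw [sum_fromBlocks1, ← Finset.sum_smul, one_sub_Ep]
    rw [Finsupp.sum] at h1 h2
    rw [h1, h2, zero_smul]
  have h4 : (∑ i ∈ c.support, c i • ((iota p q (1, i.1))⁻¹).1.1) = 1 - Ep p q := by
    have h5 := congrArg (sig p q) h3
    have h6 : ∀ (s : Finset (Gam2 Γ)) (F : (Gam2 Γ) → Matrix (Fin (p + 1) ⊕ Fin (q + 1)) (Fin (p + 1) ⊕ Fin (q + 1)) ℝ),
      sig p q (∑ i ∈ s, F i) = ∑ i ∈ s, sig p q (F i) := fun s F =>
      map_sum (AddMonoidHom.mk' (sig p q) (antiInv p q).add) F s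
    rw [(antiInv p q).sub, (antiInv p q).one, sig_Ep, h6] at h5
    simp only [(antiInv p q).smul, sig_coe] at h5
    exact h5
  have h7 : sym (p := p) (q := q) c (fun g : Gam2 Γ => (⟨(1, g.1), g.2⟩ : Γ)) (fun γ => iota p q γ.1)
      = (1 / 2 : ℝ) • (∑ i ∈ c.support, c i • (iota p q (1, i.1)).1.1)
        + (1 / 2 : ℝ) • (∑ i ∈ c.support, c i • ((iota p q (1, i.1))⁻¹).1.1) := by
    rw [sym, Finset.smul_sum, Finset.smul_sum, ← Finset.sum_add_distrib]
    refine Finset.sum_congr rfl fun i _ => ?_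
    rw [smul_smul, smul_smul, smul_add]
    congr 1 <;> congr 1 <;> ring
  rw [h7, h3, h4, ← add_smul]
  norm_num

/-- small idempotents vanish along a filter -/
theorem ev_zero {n : Type} [Fintype n] [DecidableEq n] {X : Type*} {l : Filter X}
    {F : X → Matrix n n ℝ} (h : Tendsto F l (𝓝 0)) : ∀ᶠ x in l, F x * F x = F x → F x = 0 :=
  h.eventually mat_small_idem

theorem char_mul {n : Type} [Fintype n] [DecidableEq n] (A B P : Matrix n n ℝ) (hP : P * P = P)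
    (hB : B * P = P * B) :
    (A * P + (1 - P)) * (B * P + (1 - P)) = (A * B) * P + (1 - P) := by
  have h1 : (A * P + (1 - P)) * (B * P + (1 - P))
      = A * (P * B) * P + A * (P - P * P) + (B * P - (P * B) * P) + (1 - P - P + P * P)
        := by noncomm_ring
  rw [h1, ← hB, hP]
  have h2 : B * P * P = B * P := by rw [mul_assoc, hP]
  have h3 : A * (B * P) * P = A * B * P := by rw [mul_assoc, h2, mul_assoc]
  rw [h2, h3]
  simp

/-- the algebraic endgame: a commuting self-adjoint idempotent conjugate to `Ep` -/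
theorem endgame {p q : ℕ} {Γ : Type*} [Group Γ] (ρ : Γ →* SO (J2 p q))
    (P : Matrix (Fin (p + 1) ⊕ Fin (q + 1)) (Fin (p + 1) ⊕ Fin (q + 1)) ℝ)
    (hcomm : ∀ γ, (ρ γ).1.1 * P = P * (ρ γ).1.1)
    (hdet : ∀ γ, 0 < ((ρ γ).1.1 * P + (1 - P)).det)
    (hconj : ∃ g, sig p q g * g = 1 ∧ g * P = Ep p q * g) :
    ∃ g : SO (J2 p q), ∀ γ : Γ, ∃ h : SO (J p) × SO (J q), g * ρ γ * g⁻¹ = iota p q h := by
  -- first make the conjugator special
  obtain ⟨g, hg, hgP⟩ : ∃ g : SO (J2 p q), g.1.1ᵀ * J2 p q * g.1.1 = J2 p q ∧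
      g.1.1 * P = Ep p q * g.1.1 := by
    obtain ⟨g, hg, hgP⟩ := hconj
    have hg' : gᵀ * J2 p q * g = J2 p q := by
      have h1 : J2 p q * (sig p q g * g) = J2 p q * 1 := by rw [hg]
      rw [mul_one] at h1
      calc gᵀ * J2 p q * g = (J2 p q * J2 p q) * gᵀ * J2 p q * g := by rw [J2_mul_J2, one_mul]
        _ = J2 p q * (sig p q g * g) := by simp only [sig, Matrix.mul_assoc]
        _ = _ := h1
    have hd : g.det = 1 ∨ g.det = -1 := by
      have h2 := congrArg Matrix.det hg'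
      rw [det_mul, det_mul, det_transpose] at h2
      have h3 : (J2 p q).det ≠ 0 := by
        intro h0
        have h4 := congrArg Matrix.det (J2_mul_J2 p q)
        rw [det_mul, h0, det_one] at h4
        norm_num at h4
      have h5 : (g.det - 1) * (g.det + 1) = 0 := by
        have : (g.det * g.det - 1) * (J2 p q).det = 0 := by linarith
        rcases mul_eq_zero.1 this with h | h
        · linarith
        · exact absurd h h3
      rcases mul_eq_zero.1 h5 with h | h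
      · left; linarith
      · right; linarith
    rcases hd with hd | hd
    · exact ⟨⟨⟨g, hd⟩, hg'⟩, hg', hgP⟩
    · -- multiply by a reflection in the first block
      have he : bf (e0 p) (e0 p) ≠ 0 := by rw [bf_e0_right, e0_zero]; norm_num
      set r : Matrix (Fin (p + 1) ⊕ Fin (q + 1)) (Fin (p + 1) ⊕ Fin (q + 1)) ℝ :=
        fromBlocks (refl (e0 p)) 0 0 1 with hr
      have hrJ : rᵀ * J2 p q * r = J2 p q := by
        simp only [hr, J2, fromBlocks_transpose, fromBlocks_multiply]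
        simp [refl_mem (e0 p) he]
      have hrd : r.det = -1 := by
        rw [hr, det_fromBlocks_zero₂₁, det_refl _ he, det_one, mul_one]
      have hrE : r * Ep p q = Ep p q * r := by
        simp [hr, Ep, fromBlocks_multiply]
      have h1 : (r * g)ᵀ * J2 p q * (r * g) = J2 p q := by
        calc (r * g)ᵀ * J2 p q * (r * g) = gᵀ * (rᵀ * J2 p q * r) * g := by
              rw [transpose_mul]; simp only [Matrix.mul_assoc]
          _ = J2 p q := by rw [hrJ, hg']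
      refine ⟨⟨⟨r * g, by rw [det_mul, hrd, hd]; norm_num⟩, h1⟩, h1, ?_⟩
      change r * g * P = Ep p q * (r * g)
      rw [mul_assoc, hgP, ← mul_assoc, hrE, mul_assoc]
  refine ⟨g, fun γ => ?_⟩
  have hgi : (g⁻¹).1.1 * Ep p q = P * (g⁻¹).1.1 := by
    calc (g⁻¹).1.1 * Ep p q = (g⁻¹).1.1 * (Ep p q * g.1.1) * (g⁻¹).1.1 := by
          rw [mul_assoc, mul_assoc, mul_inv_coe, mul_one]
      _ = ((g⁻¹).1.1 * g.1.1) * P * (g⁻¹).1.1 := by rw [← hgP]; simp only [mul_assoc]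
      _ = P * (g⁻¹).1.1 := by rw [inv_mul_coe, one_mul]
  obtain ⟨N, hN⟩ : ∃ N : SO (J2 p q), N = g * ρ γ * g⁻¹ := ⟨_, rfl⟩
  have hNc : N.1.1 = g.1.1 * (ρ γ).1.1 * (g⁻¹).1.1 := by rw [hN]; rfl
  have hNE : N.1.1 * Ep p q = Ep p q * N.1.1 := by
    rw [hNc]
    calc g.1.1 * (ρ γ).1.1 * (g⁻¹).1.1 * Ep p q = g.1.1 * (ρ γ).1.1 * ((g⁻¹).1.1 * Ep p q) := by
          rw [mul_assoc]
      _ = g.1.1 * ((ρ γ).1.1 * P) * (g⁻¹).1.1 := by rw [hgi]; simp only [mul_assoc]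
      _ = (g.1.1 * P) * (ρ γ).1.1 * (g⁻¹).1.1 := by rw [hcomm]; simp only [mul_assoc]
      _ = _ := by rw [hgP]; simp only [mul_assoc]
  obtain ⟨A, hA⟩ : ∃ A, A = N.1.1.toBlocks₁₁ := ⟨_, rfl⟩
  obtain ⟨B, hB⟩ : ∃ B, B = N.1.1.toBlocks₁₂ := ⟨_, rfl⟩
  obtain ⟨C, hC⟩ : ∃ C, C = N.1.1.toBlocks₂₁ := ⟨_, rfl⟩
  obtain ⟨D, hD⟩ : ∃ D, D = N.1.1.toBlocks₂₂ := ⟨_, rfl⟩
  have hblk : N.1.1 = fromBlocks A B C D := by rw [hA, hB, hC, hD, fromBlocks_toBlocks]
  have hBC : B = 0 ∧ C = 0 := by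
    rw [hblk, Ep, fromBlocks_multiply, fromBlocks_multiply] at hNE
    simp only [Matrix.mul_zero, Matrix.mul_one, add_zero, Matrix.zero_mul, Matrix.one_mul] at hNE
    have h1 := (fromBlocks_inj.1 hNE).2.1
    have h2 := (fromBlocks_inj.1 hNE).2.2.1
    exact ⟨h1.symm, h2⟩
  obtain ⟨rfl, rfl⟩ := hBC
  have hNJ : N.1.1ᵀ * J2 p q * N.1.1 = J2 p q := prop_of_mem N
  have hAD : Aᵀ * J p * A = J p ∧ Dᵀ * J q * D = J q := by
    rw [hblk, J2, fromBlocks_transpose, fromBlocks_multiply, fromBlocks_multiply] at hNJ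
    simp only [Matrix.mul_zero, add_zero, Matrix.zero_mul, transpose_zero, zero_add] at hNJ
    exact ⟨(fromBlocks_inj.1 hNJ).1, (fromBlocks_inj.1 hNJ).2.2.2⟩
  have hdetA : 0 < A.det := by
    have h1 := hdet γ
    have h2 : N.1.1 * Ep p q + (1 - Ep p q)
        = g.1.1 * ((ρ γ).1.1 * P + (1 - P)) * (g⁻¹).1.1 := by
      have h3 : g.1.1 * ((ρ γ).1.1 * P + (1 - P)) * (g⁻¹).1.1
          = g.1.1 * (ρ γ).1.1 * (P * (g⁻¹).1.1) + (g.1.1 * (g⁻¹).1.1
            - g.1.1 * (P * (g⁻¹).1.1)) := by noncomm_ring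
      rw [h3, ← hgi, mul_inv_coe, hNc]
      have h4 : g.1.1 * ((g⁻¹).1.1 * Ep p q) = Ep p q := by
        rw [← mul_assoc, mul_inv_coe, one_mul]
      rw [h4, mul_assoc, mul_assoc]
    have h5 := congrArg Matrix.det h2
    rw [det_mul, det_mul, g.1.2, (g⁻¹).1.2, one_mul, mul_one] at h5
    rw [← h5, one_sub_Ep, hblk, Ep, fromBlocks_multiply, fromBlocks_add] at h1
    simp only [Matrix.mul_zero, Matrix.mul_one, add_zero, zero_add] at h1
    rw [det_fromBlocks_zero₂₁, det_one, mul_one] at h1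
    exact h1
  have hA1 : A.det = 1 := by
    have h2 := congrArg Matrix.det hAD.1
    rw [det_mul, det_mul, det_transpose] at h2
    have h3 : (J p).det ≠ 0 := by
      intro h0
      have h4 := congrArg Matrix.det (J_mul_J p)
      rw [det_mul, h0, det_one] at h4
      norm_num at h4
    have h4 : (A.det * A.det - 1) * (J p).det = 0 := by linarith
    rcases mul_eq_zero.1 h4 with h | h
    · nlinarith
    · exact absurd h h3
  have hD1 : D.det = 1 := by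
    have h1 : N.1.1.det = 1 := N.1.2
    rw [hblk, det_fromBlocks_zero₂₁, hA1, one_mul] at h1
    exact h1
  refine ⟨(⟨⟨A, hA1⟩, hAD.1⟩, ⟨⟨D, hD1⟩, hAD.2⟩), ?_⟩
  rw [← hN]
  apply Subtype.ext
  apply Subtype.ext
  exact hblk

theorem cgen_prod (p q : ℕ) :
    Subgroup.closure ({g : SO (J p) | |g.1.1 0 0| ≤ 5 / 3} ×ˢ {g : SO (J q) | |g.1.1 0 0| ≤ 5 / 3})
      = (⊤ : Subgroup (SO (J p) × SO (J q))) := by
  have h1 : ∀ p : ℕ, (1 : SO (J p)) ∈ {g : SO (J p) | |g.1.1 0 0| ≤ 5 / 3} := by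
    intro p
    have : ((1 : SO (J p))).1.1 0 0 = 1 := by
      rw [coe_one']; simp
    simp only [Set.mem_ofPred_eq, this]
    norm_num
  rw [Subgroup.closure_prod (h1 p) (h1 q), closure_ball, closure_ball, Subgroup.top_prod_top]

theorem rigid_eventually (p q : ℕ) (hp : 2 ≤ p) (hq : 2 ≤ q) (Γ : Subgroup (SO (J p) × SO (J q)))
    (hd : DiscreteTopology Γ) (hc : CompactSpace ((SO (J p) × SO (J q)) ⧸ Γ))
    (hred : ((Gam1 Γ).prod (Gam2 Γ)).relIndex Γ ≠ 0) :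
    ∀ᶠ ρ in comap (fun ρ : Γ →* SO (J2 p q) => (ρ : Γ → SO (J2 p q)))
        (𝓝 fun γ : Γ => iota p q γ),
      ∃ g : SO (J2 p q), ∀ γ : Γ, ∃ h : SO (J p) × SO (J q), g * ρ γ * g⁻¹ = iota p q h := by
  have hK : Coco Γ := exists_compact Γ hc
  have hΛ := coco_of_relIndex hred hK
  have c1 : Coco (Gam1 Γ) := coco_fst hΛ
  have c2 : Coco (Gam2 Γ) := coco_snd hΛ
  have d1 := discrete1 Γ
  have d2 := discrete2 Γ
  obtain ⟨c, hc0, hc1⟩ := exists_coeff hp (Gam1 Γ) c1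
  obtain ⟨d, hd0, hd1⟩ := exists_coeff hq (Gam2 Γ) c2
  obtain ⟨F, hFfin, hFΓ, hFgen⟩ : ∃ F : Set (SO (J p) × SO (J q)), F.Finite ∧
      F ⊆ (Γ : Set (SO (J p) × SO (J q))) ∧ Γ ≤ Subgroup.closure F := by
    obtain ⟨K, hK1, hK2⟩ := hK
    exact fg_of_cocompact Γ ((compact_ball p (5 / 3)).prod (compact_ball q (5 / 3)))
      (cgen_prod p q) hK1 hK2
  set l : Filter (Γ →* SO (J2 p q)) := comap (fun ρ : Γ →* SO (J2 p q) => (ρ : Γ → SO (J2 p q)))
        (𝓝 fun γ : Γ => iota p q γ) with hl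
  have hM : ∀ γ : Γ, Tendsto (fun ρ : Γ →* SO (J2 p q) => (ρ γ).1.1) l
      (𝓝 (iota p q γ.1).1.1) := by
    intro γ
    have h1 : Tendsto (fun ρ : Γ →* SO (J2 p q) => (ρ : Γ → SO (J2 p q))) l
      (𝓝 fun γ : Γ => iota p q γ) := tendsto_comap
    have h2 : Continuous fun f : Γ → SO (J2 p q) => (f γ).1.1 :=
      (isClosedEmbedding_val (J2 p q)).continuous.comp (continuous_apply γ)
    exact (h2.tendsto _).comp h1
  obtain ⟨i1, hi1⟩ : ∃ i1 : Gam1 Γ → Γ, i1 = fun g => ⟨(g.1, 1), g.2⟩ := ⟨_, rfl⟩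
  obtain ⟨i2, hi2⟩ : ∃ i2 : Gam2 Γ → Γ, i2 = fun g => ⟨(1, g.1), g.2⟩ := ⟨_, rfl⟩
  have hx : Tendsto (fun ρ : Γ →* SO (J2 p q) => sym c i1 ρ) l (𝓝 (Ep p q)) := by
    have h1 := sym_iota1 Γ c hc0 hc1
    rw [← hi1] at h1
    rw [← h1]
    exact tendsto_sym c i1 (fun ρ : Γ →* SO (J2 p q) => (ρ : Γ → SO (J2 p q)))
      (fun γ => iota p q γ.1) l hM
  have hy : Tendsto (fun ρ : Γ →* SO (J2 p q) => sym d i2 ρ) l (𝓝 (1 - Ep p q)) := by
    have h1 := sym_iota2 Γ d hd0 hd1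
    rw [← hi2] at h1
    rw [← h1]
    exact tendsto_sym d i2 (fun ρ : Γ →* SO (J2 p q) => (ρ : Γ → SO (J2 p q)))
      (fun γ => iota p q γ.1) l hM
  have hE1 : (1 - Ep p q) * (1 - Ep p q) = 1 - Ep p q := by
    have := Ep_idem p q
    calc (1 - Ep p q) * (1 - Ep p q) = 1 - Ep p q - Ep p q + Ep p q * Ep p q := by noncomm_ring
      _ = _ := by rw [this]; abel
  have hE2 : Ep p q * (1 - Ep p q) = 0 := by rw [mul_sub, mul_one, Ep_idem, sub_self]
  have hE3 : (1 - Ep p q) * Ep p q = 0 := by rw [sub_mul, one_mul, Ep_idem, sub_self]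
  obtain ⟨Pf, hPf, hPf'⟩ := mat_near_idem (antiInv p q) (Ep p q) (Ep_idem p q)
  obtain ⟨Qf, hQf, hQf'⟩ := mat_near_idem (antiInv p q) (1 - Ep p q) hE1
  have hP : Tendsto (fun ρ : Γ →* SO (J2 p q) => Pf (sym c i1 ρ)) l (𝓝 (Ep p q)) := hPf.comp hx
  have hQ : Tendsto (fun ρ : Γ →* SO (J2 p q) => Qf (sym d i2 ρ)) l (𝓝 (1 - Ep p q)) :=
    hQf.comp hy
  have e1 := hx.eventually hPf'
  have e2 := hy.eventually hQf'
  have e3 := ev_zero (F := fun ρ : Γ →* SO (J2 p q) => Pf (sym c i1 ρ) * Qf (sym d i2 ρ)) (l := l)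
    (by have := hP.mul hQ; rwa [hE2] at this)
  have e4 := ev_zero (F := fun ρ : Γ →* SO (J2 p q) => (1 - Pf (sym c i1 ρ)) *
    (1 - Qf (sym d i2 ρ))) (l := l)
    (by
      have := (tendsto_const_nhds (x := (1 : Matrix _ _ ℝ)).sub hP).mul
        (tendsto_const_nhds (x := (1 : Matrix _ _ ℝ)).sub hQ)
      rwa [sub_sub_cancel, hE3] at this)
  have hMi : ∀ γ : Γ, Tendsto (fun ρ : Γ →* SO (J2 p q) => ((ρ γ)⁻¹).1.1) l
      (𝓝 ((iota p q γ.1)⁻¹).1.1) := by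
    intro γ
    have h1 : ∀ g : SO (J2 p q), (g⁻¹).1.1 = sig p q g.1.1 := fun g => (sig_coe g).symm
    simp only [h1]
    exact ((antiInv p q).cont.tendsto _).comp (hM γ)
  have hR : ∀ γ : Γ, Tendsto (fun ρ : Γ →* SO (J2 p q) =>
      (ρ γ).1.1 * Pf (sym c i1 ρ) * ((ρ γ)⁻¹).1.1) l (𝓝 (Ep p q)) := by
    intro γ
    have h1 := ((hM γ).mul hP).mul (hMi γ)
    have h2 : (iota p q γ.1).1.1 * Ep p q * ((iota p q γ.1)⁻¹).1.1 = Ep p q := by
      rw [iota_comm_Ep, mul_assoc, mul_inv_coe, mul_one]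
    rwa [h2] at h1
  have e5 : ∀ γ : Γ, ∀ᶠ ρ in l, _ := fun γ => ev_zero (F := fun ρ : Γ →* SO (J2 p q) =>
    ((ρ γ).1.1 * Pf (sym c i1 ρ) * ((ρ γ)⁻¹).1.1) * (1 - Pf (sym c i1 ρ))) (l := l)
    (by
      have := (hR γ).mul (tendsto_const_nhds (x := (1 : Matrix _ _ ℝ)).sub hP)
      rwa [hE2] at this)
  have e6 : ∀ γ : Γ, ∀ᶠ ρ in l, _ := fun γ => ev_zero (F := fun ρ : Γ →* SO (J2 p q) =>
    (1 - (ρ γ).1.1 * Pf (sym c i1 ρ) * ((ρ γ)⁻¹).1.1) * (Pf (sym c i1 ρ))) (l := l)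
    (by
      have := (tendsto_const_nhds (x := (1 : Matrix _ _ ℝ)).sub (hR γ)).mul hP
      rwa [hE3] at this)
  have e7 : ∀ γ : Γ, ∀ᶠ ρ in l, 0 < (((ρ : Γ →* SO (J2 p q)) γ).1.1 * Pf (sym c i1 ρ) +
      (1 - Pf (sym c i1 ρ))).det := by
    intro γ
    have h1 : Tendsto (fun ρ : Γ →* SO (J2 p q) => (ρ γ).1.1 * Pf (sym c i1 ρ) +
      (1 - Pf (sym c i1 ρ))) l (𝓝 ((iota p q γ.1).1.1 * Ep p q + (1 - Ep p q))) :=
      ((hM γ).mul hP).add (tendsto_const_nhds.sub hP)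
    have h2 : Continuous fun X : Matrix (Fin (p + 1) ⊕ Fin (q + 1)) (Fin (p + 1) ⊕ Fin (q + 1)) ℝ =>
      X.det := by fun_prop
    have h3 := (h2.tendsto _).comp h1
    have h4 : ((iota p q γ.1).1.1 * Ep p q + (1 - Ep p q)).det = 1 := by
      rw [one_sub_Ep, iota_coe, Ep, fromBlocks_multiply, fromBlocks_add]
      simp only [Matrix.mul_zero, Matrix.mul_one, add_zero, zero_add]
      rw [det_fromBlocks_zero₂₁, det_one, mul_one]
      exact γ.1.1.1.2
    rw [h4] at h3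
    exact h3.eventually (lt_mem_nhds one_pos)
  have e8 := hP.eventually (mat_near_conj (antiInv p q) (Ep p q) (Ep_idem p q) (sig_Ep p q))
  obtain ⟨S, hS⟩ : ∃ S : Γ → (Γ →* SO (J2 p q)) → Prop, S = fun γ (ρ : Γ →* SO (J2 p q)) =>
      ((((ρ γ).1.1 * Pf (sym c i1 ρ) * ((ρ γ)⁻¹).1.1) * (1 - Pf (sym c i1 ρ))) *
        (((ρ γ).1.1 * Pf (sym c i1 ρ) * ((ρ γ)⁻¹).1.1) * (1 - Pf (sym c i1 ρ))) =
        (((ρ γ).1.1 * Pf (sym c i1 ρ) * ((ρ γ)⁻¹).1.1) * (1 - Pf (sym c i1 ρ))) →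
        (((ρ γ).1.1 * Pf (sym c i1 ρ) * ((ρ γ)⁻¹).1.1) * (1 - Pf (sym c i1 ρ))) = 0) ∧
      (((1 - (ρ γ).1.1 * Pf (sym c i1 ρ) * ((ρ γ)⁻¹).1.1) * (Pf (sym c i1 ρ))) *
        ((1 - (ρ γ).1.1 * Pf (sym c i1 ρ) * ((ρ γ)⁻¹).1.1) * (Pf (sym c i1 ρ))) =
        ((1 - (ρ γ).1.1 * Pf (sym c i1 ρ) * ((ρ γ)⁻¹).1.1) * (Pf (sym c i1 ρ))) →
        ((1 - (ρ γ).1.1 * Pf (sym c i1 ρ) * ((ρ γ)⁻¹).1.1) * (Pf (sym c i1 ρ))) = 0) ∧
      0 < ((ρ γ).1.1 * Pf (sym c i1 ρ) + (1 - Pf (sym c i1 ρ))).det := ⟨_, rfl⟩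
  have e9 : ∀ᶠ ρ in l, ∀ γ ∈ F, ∀ h : γ ∈ Γ, S ⟨γ, h⟩ ρ :=
    (Filter.eventually_all_finite hFfin).2 fun γ hγ => by
      filter_upwards [e5 ⟨γ, hFΓ hγ⟩, e6 ⟨γ, hFΓ hγ⟩, e7 ⟨γ, hFΓ hγ⟩] with ρ h1 h2 h3 h
      rw [hS]
      exact ⟨h1, h2, h3⟩
  filter_upwards [e1, e2, e3, e4, e8, e9] with ρ a1 a2 a3 a4 a8 a9
  rw [hS] at a9
  beta_reduce at a9
  obtain ⟨x, hxdef⟩ : ∃ x, x = sym c i1 ρ := ⟨_, rfl⟩
  obtain ⟨y, hydef⟩ : ∃ y, y = sym d i2 ρ := ⟨_, rfl⟩
  obtain ⟨P, hPdef⟩ : ∃ P, P = Pf x := ⟨_, rfl⟩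
  obtain ⟨Q, hQdef⟩ : ∃ Q, Q = Qf y := ⟨_, rfl⟩
  rw [← hxdef, ← hPdef] at a1 a3 a4 a8
  rw [← hydef, ← hQdef] at a2 a3 a4
  rw [← hxdef, ← hPdef] at a9
  obtain ⟨hPP, hσP, hPc⟩ := a1 (by rw [hxdef]; exact sig_sym c i1 ρ)
  obtain ⟨hQQ, hσQ, hQc⟩ := a2 (by rw [hydef]; exact sig_sym d i2 ρ)
  -- commutation of the two factors
  have k1 : ∀ (g : Gam1 Γ) (h : Gam2 Γ), (ρ (i1 g)).1.1 * (ρ (i2 h)).1.1
      = (ρ (i2 h)).1.1 * (ρ (i1 g)).1.1 := by
    intro g h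
    have h1 : i1 g * i2 h = i2 h * i1 g := by
      rw [hi1, hi2]
      apply Subtype.ext
      simp
    rw [← coe_mul', ← coe_mul', ← map_mul, ← map_mul, h1]
  have i1inv : ∀ g : Gam1 Γ, (ρ (i1 g))⁻¹ = ρ (i1 g⁻¹) := by
    intro g
    rw [← map_inv, hi1]
    congr 1
    apply Subtype.ext
    simp
  have i2inv : ∀ g : Gam2 Γ, (ρ (i2 g))⁻¹ = ρ (i2 g⁻¹) := by
    intro g
    rw [← map_inv, hi2]
    congr 1
    apply Subtype.ext
    simp
  have commx : ∀ z, (∀ g : Gam1 Γ, z * (ρ (i1 g)).1.1 = (ρ (i1 g)).1.1 * z) → z * x = x * z := by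
    intro z hz
    rw [hxdef]
    exact comm_sym c i1 ρ z hz (fun g => by rw [i1inv]; exact hz _)
  have commy : ∀ z, (∀ g : Gam2 Γ, z * (ρ (i2 g)).1.1 = (ρ (i2 g)).1.1 * z) → z * y = y * z := by
    intro z hz
    rw [hydef]
    exact comm_sym d i2 ρ z hz (fun g => by rw [i2inv]; exact hz _)
  have k2 : ∀ h : Gam2 Γ, (ρ (i2 h)).1.1 * P = P * (ρ (i2 h)).1.1 :=
    fun h => hPc _ (commx _ fun g => (k1 g h).symm)
  have k3 : ∀ g : Gam1 Γ, (ρ (i1 g)).1.1 * Q = Q * (ρ (i1 g)).1.1 :=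
    fun g => hQc _ (commy _ fun h => k1 g h)
  have k4 : P * Q = Q * P := hQc _ (commy _ fun h => (k2 h).symm)
  have hPQ : P * Q = 0 := by
    apply a3
    calc P * Q * (P * Q) = P * (Q * P) * Q := by noncomm_ring
      _ = (P * P) * (Q * Q) := by rw [← k4]; noncomm_ring
      _ = P * Q := by rw [hPP, hQQ]
  have hPQ1 : (1 - P) * (1 - Q) = 0 := by
    apply a4
    have h1 : (1 - P) * (1 - Q) * ((1 - P) * (1 - Q))
        = (1 - P) * ((1 - Q) * (1 - P)) * (1 - Q) := by noncomm_ring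
    have h2 : (1 - Q) * (1 - P) = (1 - P) * (1 - Q) := by
      have : (1 - Q) * (1 - P) - (1 - P) * (1 - Q) = Q * P - P * Q := by noncomm_ring
      rw [k4, sub_self] at this
      exact sub_eq_zero.1 this
    have h3 : (1 - P) * (1 - P) = 1 - P := by
      calc (1 - P) * (1 - P) = 1 - P - P + P * P := by noncomm_ring
        _ = 1 - P := by rw [hPP]; abel
    have h4 : (1 - Q) * (1 - Q) = 1 - Q := by
      calc (1 - Q) * (1 - Q) = 1 - Q - Q + Q * Q := by noncomm_ring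
        _ = 1 - Q := by rw [hQQ]; abel
    rw [h1, h2]
    calc (1 - P) * ((1 - P) * (1 - Q)) * (1 - Q)
        = ((1 - P) * (1 - P)) * ((1 - Q) * (1 - Q)) := by noncomm_ring
      _ = _ := by rw [h3, h4]
  have hQ1 : Q = 1 - P := by
    have h1 : (1 - P) * (1 - Q) = 1 - P - Q + P * Q := by noncomm_ring
    rw [hPQ1, hPQ, add_zero] at h1
    exact (sub_eq_zero.1 h1.symm).symm
  have k5 : ∀ g : Gam1 Γ, (ρ (i1 g)).1.1 * P = P * (ρ (i1 g)).1.1 := by
    intro g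
    have h1 := k3 g
    rw [hQ1, mul_sub, sub_mul, mul_one, one_mul] at h1
    exact sub_right_injective h1
  -- generators
  have k6 : ∀ γ ∈ F, ∀ h : γ ∈ Γ, (ρ ⟨γ, h⟩).1.1 * P = P * (ρ ⟨γ, h⟩).1.1 := by
    intro γ hγF hγ
    obtain ⟨b1, b2, -⟩ := a9 γ hγF hγ
    obtain ⟨R, hR⟩ : ∃ R, R = (ρ ⟨γ, hγ⟩).1.1 * P * ((ρ ⟨γ, hγ⟩)⁻¹).1.1 := ⟨_, rfl⟩
    rw [← hR] at b1 b2
    have hRR : R * R = R := by
      rw [hR]
      calc (ρ ⟨γ, hγ⟩).1.1 * P * ((ρ ⟨γ, hγ⟩)⁻¹).1.1 * ((ρ ⟨γ, hγ⟩).1.1 * P * ((ρ ⟨γ, hγ⟩)⁻¹).1.1)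
          = (ρ ⟨γ, hγ⟩).1.1 * P * (((ρ ⟨γ, hγ⟩)⁻¹).1.1 * (ρ ⟨γ, hγ⟩).1.1) * P *
            ((ρ ⟨γ, hγ⟩)⁻¹).1.1 := by noncomm_ring
        _ = (ρ ⟨γ, hγ⟩).1.1 * (P * P) * ((ρ ⟨γ, hγ⟩)⁻¹).1.1 := by
            rw [inv_mul_coe]; noncomm_ring
        _ = _ := by rw [hPP]
    have hRc : ∀ g : Gam1 Γ, R * (ρ (i1 g)).1.1 = (ρ (i1 g)).1.1 * R := by
      intro g
      -- conjugate element
      obtain ⟨g', hg'⟩ : ∃ g' : Gam1 Γ, i1 g * ⟨γ, hγ⟩ = ⟨γ, hγ⟩ * i1 g' := by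
        have hm : (γ.1⁻¹ * g.1 * γ.1, (1 : SO (J q))) ∈ Γ := by
          have h1 : (g.1, (1 : SO (J q))) ∈ Γ := g.2
          have h2 := Γ.mul_mem (Γ.mul_mem (Γ.inv_mem hγ) h1) hγ
          have h3 : γ⁻¹ * (g.1, (1 : SO (J q))) * γ = (γ.1⁻¹ * g.1 * γ.1, 1) := by
            ext1
            · rfl
            · simp
          rwa [h3] at h2
        refine ⟨⟨γ.1⁻¹ * g.1 * γ.1, hm⟩, ?_⟩
        rw [hi1]
        apply Subtype.ext
        apply Prod.ext
        · simp [mul_assoc]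
        · simp
      have h1 : (ρ (i1 g)).1.1 * (ρ ⟨γ, hγ⟩).1.1 = (ρ ⟨γ, hγ⟩).1.1 * (ρ (i1 g')).1.1 := by
        rw [← coe_mul', ← coe_mul', ← map_mul, ← map_mul, hg']
      have h2 : ((ρ ⟨γ, hγ⟩)⁻¹).1.1 * (ρ (i1 g)).1.1 = (ρ (i1 g')).1.1 * ((ρ ⟨γ, hγ⟩)⁻¹).1.1 := by
        calc ((ρ ⟨γ, hγ⟩)⁻¹).1.1 * (ρ (i1 g)).1.1
            = ((ρ ⟨γ, hγ⟩)⁻¹).1.1 * ((ρ (i1 g)).1.1 * ((ρ ⟨γ, hγ⟩).1.1 *
              ((ρ ⟨γ, hγ⟩)⁻¹).1.1)) := by rw [mul_inv_coe, mul_one]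
          _ = ((ρ ⟨γ, hγ⟩)⁻¹).1.1 * ((ρ (i1 g)).1.1 * (ρ ⟨γ, hγ⟩).1.1) *
              ((ρ ⟨γ, hγ⟩)⁻¹).1.1 := by noncomm_ring
          _ = (((ρ ⟨γ, hγ⟩)⁻¹).1.1 * (ρ ⟨γ, hγ⟩).1.1) * (ρ (i1 g')).1.1 *
              ((ρ ⟨γ, hγ⟩)⁻¹).1.1 := by rw [h1]; noncomm_ring
          _ = _ := by rw [inv_mul_coe, one_mul]
      rw [hR]
      calc (ρ ⟨γ, hγ⟩).1.1 * P * ((ρ ⟨γ, hγ⟩)⁻¹).1.1 * (ρ (i1 g)).1.1
          = (ρ ⟨γ, hγ⟩).1.1 * P * (((ρ ⟨γ, hγ⟩)⁻¹).1.1 * (ρ (i1 g)).1.1) := by noncomm_ring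
        _ = (ρ ⟨γ, hγ⟩).1.1 * (P * (ρ (i1 g')).1.1) * ((ρ ⟨γ, hγ⟩)⁻¹).1.1 := by
            rw [h2]; noncomm_ring
        _ = ((ρ ⟨γ, hγ⟩).1.1 * (ρ (i1 g')).1.1) * P * ((ρ ⟨γ, hγ⟩)⁻¹).1.1 := by
            rw [← k5]; noncomm_ring
        _ = _ := by rw [← h1]; noncomm_ring
    have hRP : R * P = P * R := hPc _ (commx _ hRc)
    have hP1 : (1 - P) * (1 - P) = 1 - P := by
      calc (1 - P) * (1 - P) = 1 - P - P + P * P := by noncomm_ring
        _ = 1 - P := by rw [hPP]; abel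
    have hR1 : (1 - R) * (1 - R) = 1 - R := by
      calc (1 - R) * (1 - R) = 1 - R - R + R * R := by noncomm_ring
        _ = 1 - R := by rw [hRR]; abel
    have b1' : R * (1 - P) = 0 := by
      apply b1
      have h1 : (1 - P) * R = R * (1 - P) := by rw [sub_mul, mul_sub, hRP, one_mul, mul_one]
      calc R * (1 - P) * (R * (1 - P)) = R * ((1 - P) * R) * (1 - P) := by noncomm_ring
        _ = (R * R) * ((1 - P) * (1 - P)) := by rw [h1]; noncomm_ring
        _ = _ := by rw [hRR, hP1]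
    have b2' : (1 - R) * P = 0 := by
      apply b2
      have h1 : P * (1 - R) = (1 - R) * P := by rw [sub_mul, mul_sub, hRP, one_mul, mul_one]
      calc (1 - R) * P * ((1 - R) * P) = (1 - R) * (P * (1 - R)) * P := by noncomm_ring
        _ = ((1 - R) * (1 - R)) * (P * P) := by rw [h1]; noncomm_ring
        _ = _ := by rw [hR1, hPP]
    have hRP' : R = P := by
      rw [mul_sub, mul_one] at b1'
      rw [sub_mul, one_mul] at b2'
      exact (sub_eq_zero.1 b1').trans (sub_eq_zero.1 b2').symm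
    calc (ρ ⟨γ, hγ⟩).1.1 * P = (ρ ⟨γ, hγ⟩).1.1 * P * (((ρ ⟨γ, hγ⟩)⁻¹).1.1 * (ρ ⟨γ, hγ⟩).1.1) := by
          rw [inv_mul_coe, mul_one]
      _ = R * (ρ ⟨γ, hγ⟩).1.1 := by rw [hR]; noncomm_ring
      _ = _ := by rw [hRP']
  -- all of Γ
  obtain ⟨T, hT⟩ : ∃ T : Subgroup (SO (J p) × SO (J q)),
      T = Subgroup.map Γ.subtype
        { carrier := {γ : Γ | (ρ γ).1.1 * P = P * (ρ γ).1.1 ∧
            0 < ((ρ γ).1.1 * P + (1 - P)).det}
          mul_mem' := by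
            rintro a b ⟨ha, ha'⟩ ⟨hb, hb'⟩
            refine ⟨?_, ?_⟩
            · rw [map_mul, coe_mul', mul_assoc, hb, ← mul_assoc, ha, mul_assoc]
            · rw [map_mul, coe_mul', ← char_mul _ _ P hPP hb, det_mul]
              exact mul_pos ha' hb'
          one_mem' := by
            refine ⟨?_, ?_⟩
            · rw [map_one, coe_one', one_mul, mul_one]
            · rw [map_one, coe_one', one_mul, add_sub_cancel, det_one]
              exact one_pos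
          inv_mem' := by
            rintro a ⟨ha, ha'⟩
            have h1 : (ρ a⁻¹).1.1 * P = P * (ρ a⁻¹).1.1 := by
              rw [map_inv]
              calc ((ρ a)⁻¹).1.1 * P = ((ρ a)⁻¹).1.1 * (P * (ρ a).1.1) * ((ρ a)⁻¹).1.1 := by
                    rw [mul_assoc, mul_assoc, mul_inv_coe, mul_one]
                _ = (((ρ a)⁻¹).1.1 * (ρ a).1.1) * P * ((ρ a)⁻¹).1.1 := by
                    rw [← ha]; noncomm_ring
                _ = _ := by rw [inv_mul_coe, one_mul]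
            refine ⟨h1, ?_⟩
            have h2 := char_mul (ρ a).1.1 (ρ a⁻¹).1.1 P hPP h1
            rw [← coe_mul', ← map_mul, mul_inv_cancel, map_one, coe_one', one_mul,
              add_sub_cancel] at h2
            have h3 := congrArg Matrix.det h2
            rw [det_mul, det_one] at h3
            by_contra! h4
            have := mul_nonpos_of_nonneg_of_nonpos ha'.le h4
            linarith } := ⟨_, rfl⟩
  have hFT : Subgroup.closure F ≤ T := by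
    rw [Subgroup.closure_le]
    intro γ hγ
    have hγΓ : γ ∈ Γ := hFΓ hγ
    rw [hT]
    exact ⟨⟨γ, hγΓ⟩, ⟨k6 γ hγ hγΓ, (a9 γ hγ hγΓ).2.2⟩, rfl⟩
  have hall : ∀ γ : Γ, (ρ γ).1.1 * P = P * (ρ γ).1.1 ∧ 0 < ((ρ γ).1.1 * P + (1 - P)).det := by
    intro γ
    have h1 : γ.1 ∈ T := hFT (hFgen γ.2)
    rw [hT] at h1
    obtain ⟨γ', h2, h3⟩ := h1
    have h4 : γ' = γ := Subtype.ext h3
    rw [← h4]
    exact h2
  exact endgame ρ P (fun γ => (hall γ).1) (fun γ => (hall γ).2) (a8 hPP hσP)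

/-! ### The statement -/

/-- The special orthogonal group of the form with Gram matrix `S`, as a type. -/
def SOt {n : Type} [Fintype n] [DecidableEq n] (S : Matrix n n ℝ) : Type := SO S

/-- the group structure: matrix multiplication -/
noncomputable instance instGroupSOt {n : Type} [Fintype n] [DecidableEq n] (S : Matrix n n ℝ) :
    Group (SOt S) := inferInstanceAs (Group (SO S))

/-- the topology: subspace topology of real matrices -/
instance instTopSOt {n : Type} [Fintype n] [DecidableEq n] (S : Matrix n n ℝ) :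
    TopologicalSpace (SOt S) := inferInstanceAs (TopologicalSpace (SO S))

/-- The matrix of a group element. -/
def mat {n : Type} [Fintype n] [DecidableEq n] {S : Matrix n n ℝ} (g : SOt S) : Matrix n n ℝ :=
  g.1.1

/-- The group element given by a matrix. -/
def mkSO {n : Type} [Fintype n] [DecidableEq n] {S : Matrix n n ℝ} (A : Matrix n n ℝ)
    (hd : A.det = 1) (h : Aᵀ * S * A = S) : SOt S := ⟨⟨A, hd⟩, h⟩

/-- The group `SO(1,p)`. -/
def SO1 (p : ℕ) : Type := SOt (J p)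

noncomputable instance instGroupSO1 (p : ℕ) : Group (SO1 p) := instGroupSOt (J p)

instance instTopSO1 (p : ℕ) : TopologicalSpace (SO1 p) := instTopSOt (J p)

/-- The group `SO(2,p+q)` of the orthogonal direct sum of the two forms. -/
def SO2 (p q : ℕ) : Type := SOt (J2 p q)

noncomputable instance instGroupSO2 (p q : ℕ) : Group (SO2 p q) := instGroupSOt (J2 p q)

instance instTopSO2 (p q : ℕ) : TopologicalSpace (SO2 p q) := instTopSOt (J2 p q)

/-- The matrix of an element of `SO(1,p)`. -/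
def mat1 {p : ℕ} (g : SO1 p) : Matrix (Fin (p + 1)) (Fin (p + 1)) ℝ := mat (S := J p) g

/-- The block diagonal matrix with blocks `g.1` and `g.2`. -/
def blockMat {p q : ℕ} (g : SO1 p × SO1 q) :
    Matrix (Fin (p + 1) ⊕ Fin (q + 1)) (Fin (p + 1) ⊕ Fin (q + 1)) ℝ :=
  fromBlocks (mat1 g.1) 0 0 (mat1 g.2)

theorem blockMat_det {p q : ℕ} (x : SO1 p × SO1 q) : (blockMat x).det = 1 := (iota p q x).1.2

theorem blockMat_form {p q : ℕ} (x : SO1 p × SO1 q) :
    (blockMat x)ᵀ * J2 p q * blockMat x = J2 p q := (iota p q x).2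

/-- The natural block-diagonal embedding `SO(1,p) × SO(1,q) → SO(2,p+q)`. -/
def emb (p q : ℕ) (x : SO1 p × SO1 q) : SO2 p q :=
  mkSO (S := J2 p q) (blockMat x) (blockMat_det x) (blockMat_form x)

theorem emb_mul (p q : ℕ) (x y : SO1 p × SO1 q) : emb p q (x * y) = emb p q x * emb p q y :=
  map_mul (iota p q) x y

theorem emb_injective (p q : ℕ) : Function.Injective (emb p q) := by
  intro x y h
  have h1 : fromBlocks (mat1 x.1) 0 0 (mat1 x.2) = fromBlocks (mat1 y.1) 0 0 (mat1 y.2) :=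
    congrArg (fun g : SO (J2 p q) => g.1.1) h
  obtain ⟨h2, -, -, h3⟩ := fromBlocks_inj.1 h1
  exact Prod.ext (Subtype.ext (Subtype.ext h2)) (Subtype.ext (Subtype.ext h3))

/-- The natural embedding as a group homomorphism. -/
noncomputable def embHom (p q : ℕ) : SO1 p × SO1 q →* SO2 p q := MonoidHom.mk' (emb p q) (emb_mul p q)

/-- `Γ` is a uniform lattice of `H = SO(1,p) × SO(1,q)`: discrete with compact quotient. -/
def IsUniformLattice {p q : ℕ} (Γ : Subgroup (SO1 p × SO1 q)) : Prop :=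
  DiscreteTopology Γ ∧ CompactSpace ((SO1 p × SO1 q) ⧸ Γ)

/-- `{g ∈ SO(1,p) | (g, 1) ∈ Γ}`: the intersection of `Γ` with the first factor. -/
noncomputable def capFst {p q : ℕ} (Γ : Subgroup (SO1 p × SO1 q)) : Subgroup (SO1 p) :=
  Γ.comap (MonoidHom.inl (SO1 p) (SO1 q))

/-- `{g ∈ SO(1,q) | (1, g) ∈ Γ}`: the intersection of `Γ` with the second factor. -/
noncomputable def capSnd {p q : ℕ} (Γ : Subgroup (SO1 p × SO1 q)) : Subgroup (SO1 q) :=
  Γ.comap (MonoidHom.inr (SO1 p) (SO1 q))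

/-- `Γ` is reducible (that is, not irreducible): the product of its intersections with the two
factors has finite index in `Γ`. -/
def IsReducible {p q : ℕ} (Γ : Subgroup (SO1 p × SO1 q)) : Prop :=
  ((capFst Γ).prod (capSnd Γ)).relIndex Γ ≠ 0

/-- `Hom(Γ, SO(2,p+q))`. -/
def Rep {p q : ℕ} (Γ : Subgroup (SO1 p × SO1 q)) : Type := Γ →* SO2 p q

/-- evaluation of a homomorphism -/
noncomputable def ev {p q : ℕ} {Γ : Subgroup (SO1 p × SO1 q)} (ρ : Rep Γ) (γ : Γ) : SO2 p q :=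
  DFunLike.coe (F := Γ →* SO2 p q) ρ γ

/-- The topology of pointwise convergence on `Hom(Γ, SO(2,p+q))`. -/
noncomputable instance instTopRep {p q : ℕ} (Γ : Subgroup (SO1 p × SO1 q)) : TopologicalSpace (Rep Γ) :=
  TopologicalSpace.induced (fun (ρ : Rep Γ) (γ : Γ) => ev ρ γ) Pi.topologicalSpace

/-- The restriction to `Γ` of the natural embedding. -/
noncomputable def natRep {p q : ℕ} (Γ : Subgroup (SO1 p × SO1 q)) : Rep Γ :=
  (embHom p q).comp Γ.subtype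

/-- The image of `ρ` is conjugate in `SO(2,p+q)` into the image of the natural embedding. -/
def ConjIntoH {p q : ℕ} {Γ : Subgroup (SO1 p × SO1 q)} (ρ : Rep Γ) : Prop :=
  ∃ g : SO2 p q, ∀ γ : Γ, ∃ h : SO1 p × SO1 q, g * ev ρ γ * g⁻¹ = emb p q h

/-- `Γ` admits a non-trivial deformation into `SO(2,p+q)`: a continuous path in
`Hom(Γ, SO(2,p+q))` starting at the natural homomorphism and whose image at every `t > 0` is not
conjugate into `SO(1,p) × SO(1,q)`. -/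
def HasNontrivialDeformation {p q : ℕ} (Γ : Subgroup (SO1 p × SO1 q)) : Prop :=
  ∃ ρ : unitInterval → Rep Γ, Continuous ρ ∧ ρ 0 = natRep Γ ∧ ∀ t, 0 < t → ¬ ConjIntoH (ρ t)

theorem no_deformation {p q : ℕ} (Γ : Subgroup (SO1 p × SO1 q))
    (h : ∀ᶠ ρ in 𝓝 (natRep Γ), ConjIntoH ρ) : ¬ HasNontrivialDeformation Γ := by
  rintro ⟨ρ, hcont, h0, hne⟩
  have h2 : ∀ᶠ t in 𝓝 (0 : unitInterval), ConjIntoH (ρ t) := by
    have h3 := hcont.tendsto 0
    rw [h0] at h3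
    exact h3.eventually h
  obtain ⟨ε, hε, hball⟩ := Metric.eventually_nhds_iff.1 h2
  set t : unitInterval := ⟨min (ε / 2) 1, by positivity, min_le_right _ _⟩ with ht
  have htpos : 0 < t := by
    rw [← Subtype.coe_lt_coe]
    change (0:ℝ) < min (ε / 2) 1
    positivity
  have htball : dist t (0 : unitInterval) < ε := by
    rw [Subtype.dist_eq, Real.dist_eq]
    change |min (ε / 2) 1 - (0:ℝ)| < ε
    rw [sub_zero, abs_of_pos (by positivity)]
    exact (min_le_left _ _).trans_lt (by linarith)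
  exact hne t htpos (hball htball)

/-- For all `p, q ≥ 2`, every reducible uniform lattice `Γ` of `SO(1,p) × SO(1,q)` has the property
that every homomorphism `Γ → SO(2,p+q)` close enough to the natural one has image conjugate into
`SO(1,p) × SO(1,q)`; in particular `Γ` has no non-trivial deformation into `SO(2,p+q)`. -/
theorem result (p q : ℕ) (hp : 2 ≤ p) (hq : 2 ≤ q) (Γ : Subgroup (SO1 p × SO1 q))
    (hΓ : IsUniformLattice Γ) (hred : IsReducible Γ) :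
    (∀ᶠ ρ in 𝓝 (natRep Γ), ConjIntoH ρ) ∧ ¬ HasNontrivialDeformation Γ := by
  have h1 : ∀ᶠ ρ in 𝓝 (natRep Γ), ConjIntoH ρ := by
    have h2 := rigid_eventually p q hp hq Γ hΓ.1 hΓ.2 hred
    rw [nhds_induced]
    exact h2
  exact ⟨h1, no_deformation Γ h1⟩

end Pool.Agent.Results.MP_a37b3a_al.ReducibleRigid
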